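import Pool.Agent.Lib.MP_60829e_nt.FC.Defs

/-! # Q-infinity: definitions -/

open MvPolynomial Module

namespace MP60829e.FQ

open MP60829e.ST (Qa Lsp Lt)
open MP60829e.FC (Xr Gen)

/-- The point `(z, c + ι_* w)`. -/
noncomputable def pw {N n n' : ℕ} (z : Fin N → Qa) (c : Fin n → Qa) (ι : Fin n' ↪ Fin n)
    (w : Fin n' → ℂ) : Fin N ⊕ Fin n → ℂ :=
  Sum.elim (fun l => (z l : ℂ)) fun i => (c i : ℂ) + Function.extend ι w 0 i

/-- The property carried through the induction: for all tuples in `X` independent modulo `V` a zero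
of the family, with some coordinates algebraic and fixed, is a zero of the whole subspace. -/
def GoodP {N n : ℕ} (P : MvPolynomial (Fin N ⊕ Fin n) ℂ) (X V : Submodule Qa ℂ) : Prop :=
  ∀ (n' : ℕ) (ι : Fin n' ↪ Fin n) (z : Fin N → Qa) (c : Fin n → Qa), (n' = n → c = 0) →
    ∀ w : Fin n' → ℂ, (∀ j, w j ∈ X) → LinearIndependent Qa w →
      Disjoint (Submodule.span Qa (Set.range w)) V → eval (pw z c ι w) P = 0 →
        ∀ v : Fin n' → ℂ, eval (pw z c ι v) P = 0

end MP60829e.FQ
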