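import Pool.Agent.Lib.MP_60829e_nt.FC.Smooth
import Pool.Agent.Lib.MP_60829e_nt.TV.Grid

/-! # Chain rules, and the generic point for an arbitrary relation -/

open MvPolynomial Module

namespace MP60829e.FQ

open MP60829e.ST (Qa Lsp Lt)
open MP60829e.FC (Gen)

section generic

variable {K R : Type} [Field K] [CommRing R] [Algebra K R]

theorem ev_aeval {ι τ : Type} (θ : ι → MvPolynomial τ R) (c : τ → K) (P : MvPolynomial ι R) :
    TV.ev c (aeval θ P) = eval (fun i => TV.ev c (θ i)) P := by
  induction P using MvPolynomial.induction_on with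
  | C a => rw [algHom_C, algebraMap_eq, TV.ev_C, eval_C]
  | add p q hp hq => rw [map_add, map_add, map_add, hp, hq]
  | mul_X p i hp => rw [map_mul, TV.ev_mul, hp, aeval_X, map_mul, eval_X]

theorem dv_aeval {ι τ : Type} [Fintype ι] [Fintype τ] (θ : ι → MvPolynomial τ R) (c v : τ → K)
    (P : MvPolynomial ι R) : TV.dv c v (aeval θ P) =
      ∑ i, eval (fun i => TV.ev c (θ i)) (pderiv i P) * TV.dv c v (θ i) := by
  classical
  induction P using MvPolynomial.induction_on with
  | C a =>
    rw [algHom_C, algebraMap_eq, TV.dv_C]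
    symm
    refine Finset.sum_eq_zero fun i _ => ?_
    rw [pderiv_C, map_zero, zero_mul]
  | add p q hp hq =>
    rw [map_add, TV.dv_add, hp, hq, ← Finset.sum_add_distrib]
    refine Finset.sum_congr rfl fun i _ => ?_
    rw [map_add, map_add, add_mul]
  | mul_X p i hp =>
    rw [map_mul, TV.dv_mul, hp, aeval_X, ev_aeval]
    have h4 : ∀ i', eval (fun i => TV.ev c (θ i)) (pderiv i' (p * X i)) * TV.dv c v (θ i') =
        eval (fun i => TV.ev c (θ i)) (pderiv i' p) * TV.dv c v (θ i') * TV.ev c (θ i) +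
          (if i' = i then eval (fun i => TV.ev c (θ i)) p * TV.dv c v (θ i) else 0) := by
      intro i'
      rw [pderiv_mul, map_add, map_mul, map_mul, eval_X]
      split_ifs with h
      · subst h
        rw [pderiv_X_self, map_one]
        ring
      · rw [pderiv_X_of_ne (Ne.symm h), map_zero]
        ring
    rw [Finset.sum_congr rfl fun i' _ => h4 i', Finset.sum_add_distrib, Finset.sum_ite_eq',
      if_pos (Finset.mem_univ i), Finset.sum_mul]

theorem ev_rename' {σ τ : Type} (f : σ → τ) (c : τ → K) (p : MvPolynomial σ R) :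
    TV.ev c (rename f p) = TV.ev (fun s => c (f s)) p := by
  induction p using MvPolynomial.induction_on with
  | C a => rw [rename_C, TV.ev_C, TV.ev_C]
  | add p q hp hq => rw [map_add, map_add, map_add, hp, hq]
  | mul_X p i hp => rw [map_mul, TV.ev_mul, TV.ev_mul, hp, rename_X, TV.ev_X, TV.ev_X]

theorem dv_rename' {σ τ : Type} [Fintype σ] [Fintype τ] (f : σ → τ) (c v : τ → K)
    (p : MvPolynomial σ R) :
    TV.dv c v (rename f p) = TV.dv (fun s => c (f s)) (fun s => v (f s)) p := by
  induction p using MvPolynomial.induction_on with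
  | C a => rw [rename_C, TV.dv_C, TV.dv_C]
  | add p q hp hq => rw [map_add, TV.dv_add, TV.dv_add, hp, hq]
  | mul_X p i hp =>
    rw [map_mul, TV.dv_mul, TV.dv_mul, hp, rename_X, TV.dv_X, TV.dv_X, ev_rename', TV.ev_X,
      TV.ev_X]

theorem ev_eq_eval' {σ : Type} (c : σ → K) (p : MvPolynomial σ K) :
    TV.ev c p = eval c p := by
  induction p using MvPolynomial.induction_on with
  | C a => rw [TV.ev_C, eval_C]
  | add p q hp hq => rw [map_add, map_add, hp, hq]
  | mul_X p i hp =>
    rw [TV.ev_mul, hp, TV.ev_X, map_mul, eval_X]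
    rfl

theorem dv_eq_sum' {σ : Type} [Fintype σ] (c v : σ → K)
    (p : MvPolynomial σ K) : TV.dv c v p = ∑ s, v s * eval c (pderiv s p) := by
  unfold TV.dv
  exact Finset.sum_congr rfl fun s _ => by rw [ev_eq_eval', smul_eq_mul]

/-- Finitely many equations over `K` for a relation modulo a subspace. -/
theorem forms' {τ : Type} [Fintype τ] (L : Submodule K R) (G : MvPolynomial τ R) :
    ∃ (q : ℕ) (P : Fin q → MvPolynomial τ K),
      (∀ c : τ → K, TV.ev c G ∈ L → ∀ j, eval c (P j) = 0) ∧
      ∀ c v : τ → K, (∀ j, ∑ s, v s * eval c (pderiv s (P j)) = 0) → TV.dv c v G ∈ L := by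
  classical
  obtain ⟨Z, hZ⟩ : ∃ Z : Finset R, Z = (G.support.image fun a => coeff a G) ∪
      (Finset.univ.biUnion fun s => (pderiv s G).support.image fun a =>
        coeff a (pderiv s G)) := ⟨_, rfl⟩
  obtain ⟨q, φ, hφL, hφ⟩ := TV.exists_forms L Z
  have hc2 : ∀ s a, coeff a (pderiv s G) ∈ Submodule.span K (Z : Set R) := by
    intro s a
    by_cases ha : coeff a (pderiv s G) = 0
    · rw [ha]
      exact Submodule.zero_mem _
    · apply Submodule.subset_span
      rw [hZ, Finset.mem_coe, Finset.mem_union]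
      right
      rw [Finset.mem_biUnion]
      exact ⟨s, Finset.mem_univ _, Finset.mem_image.2 ⟨a, mem_support_iff.2 ha, rfl⟩⟩
  refine ⟨q, fun j => TV.star (φ j) G, ?_, ?_⟩
  · intro c hc j
    rw [TV.eval_star]
    exact hφL j _ hc
  · intro c v h
    refine hφ _ (Submodule.mem_sup_right ?_) fun j => ?_
    · unfold TV.dv
      exact Submodule.sum_mem _ fun s _ => Submodule.smul_mem _ _ (TV.ev_mem c _ _ (hc2 s))
    · rw [← TV.dv_star]
      exact h j

end generic

/-- The chain rule for the derivative in one variable. -/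
theorem derivative_aeval {ι : Type} [Fintype ι] (p : ι → Polynomial ℂ) (P : MvPolynomial ι ℂ) :
    Polynomial.derivative (aeval p P) =
      ∑ i, aeval p (pderiv i P) * Polynomial.derivative (p i) := by
  classical
  induction P using MvPolynomial.induction_on with
  | C a =>
    rw [algHom_C]
    have h : (algebraMap ℂ (Polynomial ℂ)) a = Polynomial.C a := rfl
    rw [h, Polynomial.derivative_C]
    symm
    refine Finset.sum_eq_zero fun i _ => ?_
    rw [pderiv_C, map_zero, zero_mul]
  | add p q hp hq =>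
    rw [map_add, Polynomial.derivative_add, hp, hq, ← Finset.sum_add_distrib]
    refine Finset.sum_congr rfl fun i _ => ?_
    rw [map_add, map_add, add_mul]
  | mul_X f i hp =>
    rw [map_mul, Polynomial.derivative_mul, hp, aeval_X]
    have h4 : ∀ i', aeval p (pderiv i' (f * X i)) * Polynomial.derivative (p i') =
        aeval p (pderiv i' f) * Polynomial.derivative (p i') * p i +
          (if i' = i then aeval p f * Polynomial.derivative (p i) else 0) := by
      intro i'
      rw [pderiv_mul, map_add, map_mul, map_mul, aeval_X]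
      split_ifs with h
      · subst h
        rw [pderiv_X_self, map_one]
        ring
      · rw [pderiv_X_of_ne (Ne.symm h), map_zero]
        ring
    rw [Finset.sum_congr rfl fun i' _ => h4 i', Finset.sum_add_distrib, Finset.sum_ite_eq',
      if_pos (Finset.mem_univ i), Finset.sum_mul]

theorem natDegree_aeval_le {ι : Type} (p : ι → Polynomial ℂ) (hp : ∀ i, (p i).natDegree ≤ 1)
    (P : MvPolynomial ι ℂ) : (aeval p P).natDegree ≤ P.totalDegree := by
  classical
  rw [aeval_def, eval₂_eq]
  refine Polynomial.natDegree_sum_le_of_forall_le _ _ fun a ha => ?_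
  refine (Polynomial.natDegree_mul_le).trans ?_
  have h1 : ((algebraMap ℂ (Polynomial ℂ)) (coeff a P)).natDegree = 0 :=
    Polynomial.natDegree_C _
  rw [h1, zero_add]
  refine le_trans ?_ (le_totalDegree ha)
  refine (Polynomial.natDegree_prod_le _ _).trans ?_
  refine Finset.sum_le_sum fun i _ => ?_
  refine (Polynomial.natDegree_pow_le).trans ?_
  calc a i * (p i).natDegree ≤ a i * 1 := Nat.mul_le_mul_left _ (hp i)
    _ = a i := mul_one _

/-- The generic point, for an arbitrary relation `G` modulo `L` with values in a `Qa`-algebra. The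
unknowns are the coefficients `M` of the tuple and further parameters `z`.
PROOF. As `FC.generic_point`. -/
theorem generic_point' {R : Type} [CommRing R] [Algebra Qa R] {m n r N : ℕ}
    (U : Ultrafilter (Fin m → ℚ)) (hU : Gen U) (L : Submodule Qa R)
    (G : MvPolynomial (Fin N ⊕ (Fin n × Fin (r + 1))) R)
    (x : ℕ → Fin m → ℚ) (M : (Fin m → ℚ) → Fin n × Fin (r + 1) → Qa)
    (z : (Fin m → ℚ) → Fin N → Qa)
    (h1 : ∀ᶠ a in (U : Filter (Fin m → ℚ)), ∀ i s,
      ∑ j : Fin (r + 1), M a (i, j) * ((Function.update x r a j s : ℚ) : Qa) = 0)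
    (h2 : ∀ᶠ a in (U : Filter (Fin m → ℚ)), TV.ev (Sum.elim (z a) (M a)) G ∈ L) :
    ∀ᶠ a in (U : Filter (Fin m → ℚ)), ∀ ψ : Fin m → Qa,
      ∃ (T : Fin n × Fin (r + 1) → Qa) (h : Fin N → Qa),
        (∀ i s, ∑ j : Fin (r + 1), T (i, j) * ((Function.update x r a j s : ℚ) : Qa) =
          -(ψ s * M a (i, Fin.last r))) ∧
        TV.dv (Sum.elim (z a) (M a)) (Sum.elim h T) G ∈ L := by
  classical
  obtain ⟨q, P', hP1, hP2⟩ := forms' L G
  -- the equations
  let P : (Fin n × Fin m) ⊕ Fin q → MvPolynomial (Fin m ⊕ (Fin N ⊕ (Fin n × Fin (r + 1)))) Qa :=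
    Sum.elim (fun p => ∑ j : Fin r, C ((x j p.2 : ℚ) : Qa) *
        X (Sum.inr (Sum.inr (p.1, j.castSucc))) +
        X (Sum.inl p.2) * X (Sum.inr (Sum.inr (p.1, Fin.last r))))
      (fun j => rename Sum.inr (P' j))
  have hup : ∀ (a : Fin m → ℚ) (c : Fin (r + 1) → Qa) (s : Fin m),
      ∑ j : Fin (r + 1), c j * ((Function.update x r a j s : ℚ) : Qa) =
        ∑ j : Fin r, ((x j s : ℚ) : Qa) * c j.castSucc + ((a s : ℚ) : Qa) * c (Fin.last r) := by
    intro a c s
    rw [Fin.sum_univ_castSucc]
    congr 1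
    · refine Finset.sum_congr rfl fun j _ => ?_
      rw [Function.update_of_ne (by
        rw [Fin.val_castSucc]
        exact (Fin.is_lt j).ne), Fin.val_castSucc, mul_comm]
    · rw [Fin.val_last, Function.update_self, mul_comm]
  have h3 : ∀ᶠ a in (U : Filter (Fin m → ℚ)), ∀ j,
      eval (Sum.elim (fun s => ((a s : ℚ) : Qa)) (Sum.elim (z a) (M a))) (P j) = 0 := by
    filter_upwards [h1, h2] with a ha1 ha2
    rintro (⟨i, s⟩ | j)
    · have h4 := ha1 i s
      rw [hup a (fun j => M a (i, j)) s] at h4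
      rw [← h4]
      simp only [P, Sum.elim_inl, map_add, map_sum, map_mul, eval_C, eval_X, Sum.elim_inr]
    · have h5 := hP1 _ ha2 j
      rw [← h5]
      simp only [P, Sum.elim_inr]
      rw [← ev_eq_eval', ev_rename', ev_eq_eval']
      rfl
  have h4 := FC.smooth U hU P (fun a => Sum.elim (z a) (M a)) h3
  filter_upwards [h4] with a ha ψ
  obtain ⟨η, hη⟩ := ha ψ
  have hη' : ∀ j, TV.dv (Sum.elim (fun s => ((a s : ℚ) : Qa)) (Sum.elim (z a) (M a)))
      (Sum.elim ψ η) (P j) = 0 := by
    intro j
    rw [dv_eq_sum', Fintype.sum_sum_type]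
    exact hη j
  refine ⟨fun p => η (Sum.inr p), fun j => η (Sum.inl j), fun i s => ?_, ?_⟩
  · have h5 := hη' (Sum.inl (i, s))
    simp only [P, Sum.elim_inl] at h5
    rw [TV.dv_add, TV.dv_sum, TV.dv_mul, TV.dv_X, TV.dv_X, TV.ev_X, TV.ev_X] at h5
    simp only [TV.dv_mul, TV.dv_C, TV.ev_C, TV.dv_X, Sum.elim_inl, Sum.elim_inr, zero_mul,
      zero_add, Algebra.algebraMap_self, RingHom.id_apply] at h5
    rw [hup a (fun j => η (Sum.inr (i, j))) s]
    linear_combination h5
  · have h5 : TV.dv (Sum.elim (z a) (M a)) η G ∈ L := by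
      refine hP2 _ _ fun j => ?_
      have h6 := hη' (Sum.inr j)
      simp only [P, Sum.elim_inr] at h6
      rw [dv_rename', dv_eq_sum'] at h6
      exact h6
    have h6 : η = Sum.elim (fun j => η (Sum.inl j)) (fun p => η (Sum.inr p)) := by
      funext t
      rcases t with t | t <;> rfl
    rw [h6] at h5
    exact h5

end MP60829e.FQ
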