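import Pool.Agent.Lib.MP_60829e_nt.FQ.Chain

/-! # Q-infinity: the polynomial on the line in the direction of the last column -/

open MvPolynomial Module

namespace MP60829e.FQ

open MP60829e.ST (Qa Lsp Lt)
open MP60829e.FC (Xr Gen)

/-- `lam` with the variable of `ℂ[X]` added to the last entry -/
noncomputable def lamS {r : ℕ} (lam : Fin (r + 1) → ℂ) (j : Fin (r + 1)) : Polynomial ℂ :=
  Polynomial.C (lam j) + if j = Fin.last r then Polynomial.X else 0

theorem smul_poly (c : Qa) (f : Polynomial ℂ) : c • f = Polynomial.C (c : ℂ) * f := by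
  rw [Algebra.smul_def]
  rfl

theorem pt_lamS {n r : ℕ} (lam : Fin (r + 1) → ℂ) (M : Fin n × Fin (r + 1) → Qa) (i : Fin n) :
    TV.pt (lamS lam) M i = Polynomial.C (TV.pt lam M i) +
      Polynomial.C (M (i, Fin.last r) : ℂ) * Polynomial.X := by
  classical
  unfold TV.pt lamS
  simp only [smul_add, Finset.sum_add_distrib]
  congr 1
  · rw [map_sum]
    refine Finset.sum_congr rfl fun j _ => ?_
    rw [smul_poly, ← Polynomial.C_mul]
    rfl
  · rw [Finset.sum_eq_single (Fin.last r)]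
    · rw [if_pos rfl, smul_poly]
    · intro j _ hj
      rw [if_neg hj, smul_zero]
    · intro h
      exact absurd (Finset.mem_univ _) h

/-- the coordinates of the line -/
noncomputable def lpt {N n r : ℕ} (lam : Fin (r + 1) → ℂ) (z : Fin N → Qa)
    (M : Fin n × Fin (r + 1) → Qa) : Fin N ⊕ Fin n → Polynomial ℂ :=
  Sum.elim (fun l => Polynomial.C (z l : ℂ)) (TV.pt (lamS lam) M)

theorem eval_line {N n r : ℕ} (lam : Fin (r + 1) → ℂ) (z : Fin N → Qa)
    (M : Fin n × Fin (r + 1) → Qa) (P : MvPolynomial (Fin N ⊕ Fin n) ℂ) (s : ℂ) :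
    (aeval (lpt lam z M) P).eval s = eval (Sum.elim (fun l => (z l : ℂ))
      (fun i => TV.pt lam M i + s * (M (i, Fin.last r) : ℂ))) P := by
  induction P using MvPolynomial.induction_on with
  | C a =>
    rw [algHom_C, eval_C]
    exact Polynomial.eval_C
  | add p q hp hq => rw [map_add, map_add, Polynomial.eval_add, hp, hq]
  | mul_X p i hp =>
    rw [map_mul, map_mul, Polynomial.eval_mul, hp, aeval_X, eval_X]
    congr 1
    rcases i with l | i
    · exact Polynomial.eval_C
    · simp only [lpt, Sum.elim_inr, pt_lamS, Polynomial.eval_add, Polynomial.eval_mul,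
        Polynomial.eval_C, Polynomial.eval_X]
      ring

/-- the substitution -/
noncomputable def thS {N n r : ℕ} (lam : Fin (r + 1) → ℂ) : Fin N ⊕ Fin n →
    MvPolynomial (Fin N ⊕ (Fin n × Fin (r + 1))) (Polynomial ℂ) :=
  Sum.elim (fun l => X (Sum.inl l)) fun i => ∑ j, C (lamS lam j) * X (Sum.inr (i, j))

theorem ev_thS {N n r : ℕ} (lam : Fin (r + 1) → ℂ) (z : Fin N → Qa)
    (M : Fin n × Fin (r + 1) → Qa) :
    (fun t => TV.ev (Sum.elim z M) (thS lam t)) = lpt (N := N) lam z M := by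
  funext t
  rcases t with l | i
  · simp only [thS, lpt, Sum.elim_inl]
    rw [TV.ev_X]
    rfl
  · simp only [thS, lpt, Sum.elim_inr]
    rw [map_sum]
    unfold TV.pt
    refine Finset.sum_congr rfl fun j _ => ?_
    rw [TV.ev_mul, TV.ev_C, TV.ev_X, Algebra.smul_def, mul_comm]
    rfl

theorem dv_thS_inl {N n r : ℕ} (lam : Fin (r + 1) → ℂ) (z h : Fin N → Qa)
    (M T : Fin n × Fin (r + 1) → Qa) (l : Fin N) :
    TV.dv (Sum.elim z M) (Sum.elim h T) (thS lam (Sum.inl l)) = Polynomial.C (h l : ℂ) := by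
  simp only [thS, Sum.elim_inl]
  rw [TV.dv_X]
  rfl

theorem dv_thS_inr {N n r : ℕ} (lam : Fin (r + 1) → ℂ) (z h : Fin N → Qa)
    (M T : Fin n × Fin (r + 1) → Qa) (i : Fin n) :
    TV.dv (Sum.elim z M) (Sum.elim h T) (thS lam (Sum.inr i)) = TV.pt (lamS lam) T i := by
  simp only [thS, Sum.elim_inr]
  rw [TV.dv_sum]
  unfold TV.pt
  refine Finset.sum_congr rfl fun j _ => ?_
  rw [TV.dv_mul, TV.dv_C, TV.ev_C, TV.dv_X, zero_mul, zero_add, Algebra.smul_def, mul_comm]
  rfl

/-- the relation -/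
noncomputable def GS {N n r : ℕ} (lam : Fin (r + 1) → ℂ) (P : MvPolynomial (Fin N ⊕ Fin n) ℂ) :
    MvPolynomial (Fin N ⊕ (Fin n × Fin (r + 1))) (Polynomial ℂ) :=
  aeval (thS lam) (map (Polynomial.C : ℂ →+* Polynomial ℂ) P)

theorem eval_map_C {ι : Type} (p : ι → Polynomial ℂ) (P : MvPolynomial ι ℂ) :
    eval p (map (Polynomial.C : ℂ →+* Polynomial ℂ) P) = aeval p P := by
  rw [eval_map, aeval_def]
  rfl

theorem ev_GS {N n r : ℕ} (lam : Fin (r + 1) → ℂ) (P : MvPolynomial (Fin N ⊕ Fin n) ℂ)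
    (z : Fin N → Qa) (M : Fin n × Fin (r + 1) → Qa) :
    TV.ev (Sum.elim z M) (GS lam P) = aeval (lpt lam z M) P := by
  unfold GS
  rw [ev_aeval, ev_thS, eval_map_C]

theorem dv_GS {N n r : ℕ} (lam : Fin (r + 1) → ℂ) (P : MvPolynomial (Fin N ⊕ Fin n) ℂ)
    (z h : Fin N → Qa) (M T : Fin n × Fin (r + 1) → Qa) :
    TV.dv (Sum.elim z M) (Sum.elim h T) (GS lam P) =
      ∑ l, aeval (lpt lam z M) (pderiv (Sum.inl l) P) * Polynomial.C (h l : ℂ) +
      ∑ i, aeval (lpt lam z M) (pderiv (Sum.inr i) P) * TV.pt (lamS lam) T i := by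
  unfold GS
  rw [dv_aeval, ev_thS, Fintype.sum_sum_type]
  have h1 : ∀ l : Fin N, eval (lpt lam z M) (pderiv (Sum.inl l)
      (map (Polynomial.C : ℂ →+* Polynomial ℂ) P)) *
      TV.dv (Sum.elim z M) (Sum.elim h T) (thS lam (Sum.inl l)) =
      aeval (lpt lam z M) (pderiv (Sum.inl l) P) * Polynomial.C (h l : ℂ) := by
    intro l
    rw [dv_thS_inl, pderiv_map, eval_map_C]
  have h2 : ∀ i : Fin n, eval (lpt lam z M) (pderiv (Sum.inr i)
      (map (Polynomial.C : ℂ →+* Polynomial ℂ) P)) *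
      TV.dv (Sum.elim z M) (Sum.elim h T) (thS lam (Sum.inr i)) =
      aeval (lpt lam z M) (pderiv (Sum.inr i) P) * TV.pt (lamS lam) T i := by
    intro i
    rw [dv_thS_inr, pderiv_map, eval_map_C]
  rw [Finset.sum_congr rfl fun l _ => h1 l, Finset.sum_congr rfl fun i _ => h2 i]

/-- the polynomials without a term of degree `q` -/
noncomputable def Lq (q : ℕ) : Submodule Qa (Polynomial ℂ) where
  carrier := {f | f.coeff q = 0}
  zero_mem' := Polynomial.coeff_zero q
  add_mem' := by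
    intro f g hf hg
    have hf' : f.coeff q = 0 := hf
    have hg' : g.coeff q = 0 := hg
    show (f + g).coeff q = 0
    rw [Polynomial.coeff_add, hf', hg', add_zero]
  smul_mem' := by
    intro c f hf
    have hf' : f.coeff q = 0 := hf
    show (c • f).coeff q = 0
    rw [smul_poly, Polynomial.coeff_C_mul, hf', mul_zero]

theorem mem_Lq {q : ℕ} {f : Polynomial ℂ} : f ∈ Lq q ↔ f.coeff q = 0 := Iff.rfl

/-- The first nonzero coefficient of the polynomial on the line. -/
theorem exists_mult {N n r : ℕ} (lam : Fin (r + 1) → ℂ) (P : MvPolynomial (Fin N ⊕ Fin n) ℂ)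
    (z : Fin N → Qa) (M : Fin n × Fin (r + 1) → Qa)
    (h0 : eval (Sum.elim (fun l => (z l : ℂ)) (TV.pt lam M)) P = 0) (s : ℂ)
    (hs : eval (Sum.elim (fun l => (z l : ℂ))
      (fun i => TV.pt lam M i + s * (M (i, Fin.last r) : ℂ))) P ≠ 0) :
    ∃ q : Fin (P.totalDegree + 1), (aeval (lpt lam z M) P).coeff q = 0 ∧
      (aeval (lpt lam z M) P).coeff (q + 1) ≠ 0 := by
  obtain ⟨F, hF⟩ : ∃ F, F = aeval (lpt lam z M) P := ⟨_, rfl⟩
  rw [← hF]
  have hF0 : F ≠ 0 := by
    rintro rfl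
    apply hs
    rw [← eval_line, ← hF, Polynomial.eval_zero]
  have hFc : F.coeff 0 = 0 := by
    rw [Polynomial.coeff_zero_eq_eval_zero, hF, eval_line]
    simp only [zero_mul, add_zero]
    exact h0
  have hdeg : F.natDegree ≤ P.totalDegree := by
    rw [hF]
    refine natDegree_aeval_le _ (fun t => ?_) P
    rcases t with l | i
    · simp only [lpt, Sum.elim_inl, Polynomial.natDegree_C, zero_le]
    · simp only [lpt, Sum.elim_inr, pt_lamS]
      refine (Polynomial.natDegree_add_le _ _).trans (max_le ?_ ?_)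
      · rw [Polynomial.natDegree_C]
        exact Nat.zero_le _
      · exact Polynomial.natDegree_C_mul_le _ _ |>.trans Polynomial.natDegree_X_le
  have hμ : F.coeff F.natTrailingDegree ≠ 0 := by
    intro h
    exact hF0 (Polynomial.trailingCoeff_eq_zero.1 h)
  have hμ0 : F.natTrailingDegree ≠ 0 := by
    intro h
    rw [h] at hμ
    exact hμ hFc
  have hμd : F.natTrailingDegree ≤ F.natDegree := Polynomial.natTrailingDegree_le_natDegree F
  refine ⟨⟨F.natTrailingDegree - 1, by omega⟩, ?_, ?_⟩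
  · exact Polynomial.coeff_eq_zero_of_lt_natTrailingDegree (by
      show F.natTrailingDegree - 1 < _
      omega)
  · have h1 : F.natTrailingDegree - 1 + 1 = F.natTrailingDegree := by omega
    show F.coeff (F.natTrailingDegree - 1 + 1) ≠ 0
    rw [h1]
    exact hμ

end MP60829e.FQ
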