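import Pool.Agent.Lib.MP_60829e_nt.FC.Count
import Pool.Agent.Lib.MP_60829e_nt.HP.Main

/-! # Q-infinity: the tangent directions -/

open MvPolynomial Module

namespace MP60829e.FQ

open MP60829e.ST (Qa Lsp Lt)

/-- The values `∑ u_i T_i` for `T_i` in `Lsp` with `∑ g_i T_i = 0`. -/
noncomputable def Tsp0 {n : ℕ} (g : Fin n → ℂ) (u : Fin n → Qa) : Submodule Qa ℂ where
  carrier := {t | ∃ T : Fin n → ℂ, (∀ i, T i ∈ Lsp) ∧ ∑ i, g i * T i = 0 ∧ t = ∑ i, u i • T i}
  zero_mem' := ⟨0, fun _ => Lsp.zero_mem, by simp, by simp⟩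
  add_mem' := by
    rintro _ _ ⟨T, hT, hT', rfl⟩ ⟨S, hS, hS', rfl⟩
    refine ⟨T + S, fun i => Lsp.add_mem (hT i) (hS i), ?_, ?_⟩
    · simp only [Pi.add_apply, mul_add, Finset.sum_add_distrib, hT', hS', add_zero]
    · simp only [Pi.add_apply, smul_add, Finset.sum_add_distrib]
  smul_mem' := by
    rintro q _ ⟨T, hT, hT', rfl⟩
    refine ⟨q • T, fun i => Lsp.smul_mem q (hT i), ?_, ?_⟩
    · simp only [Pi.smul_apply, mul_smul_comm, ← Finset.smul_sum, hT', smul_zero]
    · simp only [Pi.smul_apply, Finset.smul_sum]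
      exact Finset.sum_congr rfl fun i _ => smul_comm _ _ _

theorem mem_Tsp0 {n : ℕ} {g : Fin n → ℂ} {u : Fin n → Qa} {t : ℂ} : t ∈ Tsp0 g u ↔
    ∃ T : Fin n → ℂ, (∀ i, T i ∈ Lsp) ∧ ∑ i, g i * T i = 0 ∧ t = ∑ i, u i • T i := Iff.rfl

private theorem smul_eq0 (c : Qa) (z : ℂ) : c • z = (c : ℂ) * z := rfl

/-- a basis of the span -/
private theorem exists_h0 {n : ℕ} (g : Fin n → ℂ) : ∃ (e : ℕ) (h : Fin e → ℂ)
    (ρ : Fin n → Fin e → Qa), e ≤ n ∧ LinearIndependent Qa h ∧
    ∀ i, g i = ∑ s, (ρ i s : ℂ) * h s := by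
  classical
  have hfin : FiniteDimensional Qa (Submodule.span Qa (Set.range g)) :=
    FiniteDimensional.span_of_finite Qa (Set.finite_range g)
  have hle : finrank Qa (Submodule.span Qa (Set.range g)) ≤ n := by
    have := finrank_range_le_card (R := Qa) g
    rw [Fintype.card_fin] at this
    exact this
  have hmem : ∀ i, g i ∈ Submodule.span Qa (Set.range g) := fun i =>
    Submodule.subset_span ⟨i, rfl⟩
  let b := finBasis Qa (Submodule.span Qa (Set.range g))
  refine ⟨_, fun s => (b s : ℂ), fun i s => b.repr ⟨g i, hmem i⟩ s, hle, ?_, ?_⟩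
  · exact b.linearIndependent.map' (Submodule.subtype _) (Submodule.ker_subtype _)
  · intro i
    have h1 := congrArg (Submodule.subtype _) (b.sum_repr ⟨g i, hmem i⟩)
    rw [map_sum] at h1
    simp only [map_smul, Submodule.subtype_apply] at h1
    conv_lhs => rw [← h1]
    rfl

/-- The tangent directions form a space of bounded dimension. -/
theorem finrank_Tsp0 {n : ℕ} (g : Fin n → ℂ) (u : Fin n → Qa)
    (hu : ∀ v : Fin n → Qa, ∑ i, v i • g i = 0 → ∑ i, u i * v i = 0) :
    FiniteDimensional Qa (Tsp0 g u) ∧ finrank Qa (Tsp0 g u) ≤ n * (n + 1) := by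
  classical
  obtain ⟨e, h, ρ, hen, hli, hg⟩ := exists_h0 g
  -- the coefficients `μ`
  obtain ⟨μ, hμ⟩ : ∃ μ : Fin e → Qa, ∀ i, u i = ∑ s, μ s * ρ i s := by
    let Lm : Fin e → (Fin n → Qa) →ₗ[Qa] Qa := fun s => ∑ i, ρ i s • LinearMap.proj i
    let Km : (Fin n → Qa) →ₗ[Qa] Qa := ∑ i, u i • LinearMap.proj i
    have hLm : ∀ s v, Lm s v = ∑ i, ρ i s * v i := by
      intro s v
      simp [Lm, LinearMap.sum_apply]
    have hKm : ∀ v, Km v = ∑ i, u i * v i := by
      intro v
      simp [Km, LinearMap.sum_apply]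
    have h1 : Km ∈ Submodule.span Qa (Set.range Lm) := by
      apply mem_span_of_iInf_ker_le_ker
      intro v hv
      rw [Submodule.mem_iInf] at hv
      rw [LinearMap.mem_ker, hKm]
      apply hu v
      have h2 : ∀ s, ∑ i, (v i : ℂ) * (ρ i s : ℂ) = 0 := by
        intro s
        have h3 := hv s
        rw [LinearMap.mem_ker, hLm] at h3
        have h4 : ((∑ i, ρ i s * v i : Qa) : ℂ) = 0 := by rw [h3]; rfl
        push_cast at h4
        rw [← h4]
        exact Finset.sum_congr rfl fun i _ => mul_comm _ _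
      calc ∑ i, v i • g i = ∑ i, ∑ s, (v i : ℂ) * (ρ i s : ℂ) * h s := by
            refine Finset.sum_congr rfl fun i _ => ?_
            rw [smul_eq0, hg i, Finset.mul_sum]
            exact Finset.sum_congr rfl fun s _ => by ring
        _ = ∑ s, (∑ i, (v i : ℂ) * (ρ i s : ℂ)) * h s := by
            rw [Finset.sum_comm]
            exact Finset.sum_congr rfl fun s _ => by rw [Finset.sum_mul]
        _ = 0 := by
            simp only [h2, zero_mul, Finset.sum_const_zero]
    rw [Submodule.mem_span_range_iff_exists_fun] at h1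
    obtain ⟨μ, hμ⟩ := h1
    refine ⟨μ, fun i => ?_⟩
    have h2 := congrArg (fun f => f (Pi.single i 1)) hμ
    simp only [hKm, LinearMap.sum_apply, LinearMap.smul_apply, hLm, smul_eq_mul] at h2
    simp only [Pi.single_apply, mul_ite, mul_one, mul_zero, Finset.sum_ite_eq',
      Finset.mem_univ, if_true] at h2
    exact h2.symm
  let V0 : Submodule Qa (Fin e → ℂ) :=
    { carrier := {v | (∀ i, v i ∈ Lsp) ∧ ∑ i, h i * v i = 0}
      zero_mem' := ⟨fun _ => Lsp.zero_mem, by simp⟩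
      add_mem' := by
        rintro v w ⟨h1, h3⟩ ⟨h1', h3'⟩
        refine ⟨fun s => Lsp.add_mem (h1 s) (h1' s), ?_⟩
        simp only [Pi.add_apply, mul_add, Finset.sum_add_distrib, h3, h3', add_zero]
      smul_mem' := by
        rintro c v ⟨h1, h3⟩
        refine ⟨fun s => Lsp.smul_mem c (h1 s), ?_⟩
        simp only [Pi.smul_apply, mul_smul_comm, ← Finset.smul_sum, h3, smul_zero] }
  obtain ⟨hf0, hr0⟩ := HP.hp h hli V0 (fun v hv => hv.1) (fun v hv => hv.2)
  -- the image
  let φ : (Fin e → ℂ) →ₗ[Qa] ℂ := ∑ s : Fin e, μ s • LinearMap.proj s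
  have hφ : ∀ v, φ v = ∑ s : Fin e, μ s • v s := by
    intro v
    simp [φ, LinearMap.sum_apply]
  have hT : Tsp0 g u ≤ V0.map φ := by
    rintro t ⟨T, hT1, hT2, rfl⟩
    refine ⟨fun s => ∑ i, ρ i s • T i, ⟨fun s => ?_, ?_⟩, ?_⟩
    · exact Lsp.sum_mem fun i _ => Lsp.smul_mem _ (hT1 i)
    · calc ∑ s, h s * ∑ i, ρ i s • T i = ∑ s, ∑ i, h s * ((ρ i s : ℂ) * T i) := by
            refine Finset.sum_congr rfl fun s _ => ?_
            rw [Finset.mul_sum]
            rfl
        _ = ∑ i, ∑ s, h s * ((ρ i s : ℂ) * T i) := Finset.sum_comm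
        _ = ∑ i, g i * T i := by
            refine Finset.sum_congr rfl fun i _ => ?_
            rw [hg i, Finset.sum_mul]
            exact Finset.sum_congr rfl fun s _ => by ring
        _ = 0 := hT2
    · rw [hφ]
      simp only [hμ, smul_eq0, Finset.mul_sum]
      rw [Finset.sum_comm]
      refine Finset.sum_congr rfl fun i _ => ?_
      push_cast
      rw [Finset.sum_mul]
      exact Finset.sum_congr rfl fun s _ => by ring
  have hfm : FiniteDimensional Qa (V0.map φ) := inferInstance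
  refine ⟨Submodule.finiteDimensional_of_le hT, ?_⟩
  have h1 := Submodule.finrank_mono hT
  have h2 := Submodule.finrank_map_le φ V0
  have h3 : e * (e + 1) ≤ n * (n + 1) := Nat.mul_le_mul hen (by omega)
  omega

/-- The count of the directions. -/
theorem count0 {n m r v s' : ℕ} (lam : Fin (r + 1) → ℂ) (hlam : LinearIndependent Qa lam)
    (hlog : ∀ j, lam j ∈ Lsp) (x : Fin (r + 1) → Fin m → ℚ) (g : Fin n → ℂ) (u c : Fin n → Qa)
    (huc : ∑ i, u i * c i = 1) (V : Submodule Qa ℂ) [FiniteDimensional Qa V]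
    (hV : finrank Qa V ≤ v) (hfin : FiniteDimensional Qa (Tsp0 g u))
    (hs : finrank Qa (Tsp0 g u) ≤ s')
    (h : ∀ ψ : Fin m → Qa, ∃ T : Fin n × Fin (r + 1) → Qa, ∃ z ∈ V,
      (∀ i s, ∑ j, T (i, j) * ((x j s : ℚ) : Qa) = -(ψ s * c i)) ∧
      ∑ i, g i * TV.pt lam T i + z = 0) : m ≤ v + s' := by
  classical
  choose T z hz hT hTz using fun s : Fin m => h (Pi.single s 1)
  let TL : (Fin m → Qa) →ₗ[Qa] (Fin n × Fin (r + 1) → Qa) := Fintype.linearCombination Qa T
  have hTL : ∀ ψ, TL ψ = ∑ s, ψ s • T s := fun ψ => Fintype.linearCombination_apply Qa T ψ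
  let zL : (Fin m → Qa) →ₗ[Qa] ℂ := Fintype.linearCombination Qa z
  have hzL : ∀ ψ, zL ψ = ∑ s, ψ s • z s := fun ψ => Fintype.linearCombination_apply Qa z ψ
  have hQr : finrank Qa (LinearMap.range zL) ≤ v := by
    have h1 : LinearMap.range zL ≤ V := by
      rintro _ ⟨ψ, rfl⟩
      rw [hzL]
      exact Submodule.sum_mem _ fun s _ => V.smul_mem _ (hz s)
    exact (Submodule.finrank_mono h1).trans hV
  have hrn := LinearMap.finrank_range_add_finrank_ker zL
  rw [Module.finrank_fin_fun] at hrn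
  -- the relation
  have hrel : ∀ ψ : Fin m → Qa, ∀ i s, ∑ j, TL ψ (i, j) * ((x j s : ℚ) : Qa) = -(ψ s * c i) := by
    intro ψ i s
    have e1 : ∀ j, TL ψ (i, j) * ((x j s : ℚ) : Qa) =
        ∑ t, ψ t * (T t (i, j) * ((x j s : ℚ) : Qa)) := by
      intro j
      rw [hTL, Finset.sum_apply, Finset.sum_mul]
      refine Finset.sum_congr rfl fun t _ => ?_
      rw [Pi.smul_apply, smul_eq_mul, mul_assoc]
    rw [Finset.sum_congr rfl fun j _ => e1 j, Finset.sum_comm]
    simp only [← Finset.mul_sum, hT]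
    rw [Finset.sum_eq_single s]
    · rw [Pi.single_eq_same]; ring
    · intro t _ hts
      rw [Pi.single_eq_of_ne (Ne.symm hts)]; ring
    · intro hh; exact absurd (Finset.mem_univ s) hh
  have hmem : ∀ ψ : Fin m → Qa, ψ ∈ LinearMap.ker zL → FC.cntMap lam u (TL ψ) ∈ Tsp0 g u := by
    intro ψ hψ
    have h1 : zL ψ = 0 := hψ
    rw [mem_Tsp0]
    refine ⟨fun i => TV.pt lam (TL ψ) i, fun i => ?_, ?_, rfl⟩
    · exact Submodule.sum_mem _ fun j _ => Lsp.smul_mem _ (hlog j)
    · rw [← FC.cntG_apply, hTL, map_sum]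
      have e2 : ∑ s, FC.cntG lam g (ψ s • T s) =
          ∑ s, ψ s • (FC.cntG lam g (T s) + z s) - zL ψ := by
        rw [hzL, ← Finset.sum_sub_distrib]
        refine Finset.sum_congr rfl fun s _ => ?_
        rw [map_smul, smul_add, add_sub_cancel_right]
      rw [e2, h1, sub_zero]
      refine Finset.sum_eq_zero fun s _ => ?_
      rw [FC.cntG_apply, hTz s, smul_zero]
  have hinj : ∀ ψ : Fin m → Qa, FC.cntMap lam u (TL ψ) = 0 → ψ = 0 := by
    intro ψ hψ
    rw [FC.cntMap_eq] at hψ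
    have h1 := Fintype.linearIndependent_iff.1 hlam _ hψ
    funext s
    have h2 : ∑ j, (∑ i, u i * TL ψ (i, j)) * ((x j s : ℚ) : Qa) = 0 :=
      Finset.sum_eq_zero fun j _ => by rw [h1 j, zero_mul]
    have h3 : ∑ j, (∑ i, u i * TL ψ (i, j)) * ((x j s : ℚ) : Qa) =
        ∑ i, u i * ∑ j, TL ψ (i, j) * ((x j s : ℚ) : Qa) := by
      simp only [Finset.sum_mul, Finset.mul_sum, mul_assoc]
      exact Finset.sum_comm
    rw [h3] at h2
    simp only [hrel] at h2
    have h4 : ∑ i, u i * -(ψ s * c i) = -ψ s * ∑ i, u i * c i := by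
      rw [Finset.mul_sum]
      exact Finset.sum_congr rfl fun i _ => by ring
    rw [h4, huc, mul_one, neg_eq_zero] at h2
    exact h2
  have hker : finrank Qa (LinearMap.ker zL) ≤ finrank Qa (Tsp0 g u) := by
    let F : LinearMap.ker zL →ₗ[Qa] Tsp0 g u :=
      ((FC.cntMap lam u ∘ₗ TL).domRestrict (LinearMap.ker zL)).codRestrict (Tsp0 g u)
        fun ψ => hmem ψ.1 ψ.2
    refine LinearMap.finrank_le_finrank_of_injective (f := F) ?_
    rw [← LinearMap.ker_eq_bot, LinearMap.ker_eq_bot']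
    intro ψ hψ
    have h1 : FC.cntMap lam u (TL ψ.1) = 0 := congrArg Subtype.val hψ
    exact Subtype.ext (hinj ψ.1 h1)
  omega

end MP60829e.FQ
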