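import Pool.Agent.Lib.MP_60829e_nt.FQ.Defs
import Pool.Agent.Lib.MP_60829e_nt.FQ.Mult
import Pool.Agent.Lib.MP_60829e_nt.FQ.Tan

/-! # Q-infinity: the column lemma -/

open MvPolynomial Module

namespace MP60829e.FQ

open MP60829e.ST (Qa Lsp Lt)
open MP60829e.FC (Xr Gen)

/-- Lemma A of 3875: every zero is a zero of the whole line in the direction of the new logarithm. -/
theorem col {m n N r : ℕ} (hm : N + n * (n + 2) + 1 ≤ m) (lam : Fin (r + 1) → ℂ)
    (hlam : LinearIndependent Qa lam) (hlog : ∀ j, lam j ∈ Lsp) (x : ℕ → Fin m → ℚ)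
    (U : Ultrafilter (Fin m → ℚ)) (hU : Gen U) (P : MvPolynomial (Fin N ⊕ Fin n) ℂ) :
    ∀ᶠ a in (U : Filter (Fin m → ℚ)), ∀ (z : Fin N → Qa) (M : Fin n × Fin (r + 1) → Qa),
      (∀ i s, ∑ j : Fin (r + 1), M (i, j) * ((Function.update x r a j s : ℚ) : Qa) = 0) →
      eval (Sum.elim (fun l => (z l : ℂ)) (TV.pt lam M)) P = 0 →
      ∀ s : ℂ, eval (Sum.elim (fun l => (z l : ℂ))
        (fun i => TV.pt lam M i + s * (M (i, Fin.last r) : ℂ))) P = 0 := by
  classical
  by_contra hcon
  rw [← Ultrafilter.eventually_not] at hcon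
  have hdata : ∀ a : Fin m → ℚ, ∃ (z : Fin N → Qa) (M : Fin n × Fin (r + 1) → Qa)
      (q : Fin (P.totalDegree + 1)),
      ¬ (∀ (z : Fin N → Qa) (M : Fin n × Fin (r + 1) → Qa),
        (∀ i s, ∑ j : Fin (r + 1), M (i, j) * ((Function.update x r a j s : ℚ) : Qa) = 0) →
        eval (Sum.elim (fun l => (z l : ℂ)) (TV.pt lam M)) P = 0 →
        ∀ s : ℂ, eval (Sum.elim (fun l => (z l : ℂ))
          (fun i => TV.pt lam M i + s * (M (i, Fin.last r) : ℂ))) P = 0) →
      (∀ i s, ∑ j : Fin (r + 1), M (i, j) * ((Function.update x r a j s : ℚ) : Qa) = 0) ∧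
      (aeval (lpt lam z M) P).coeff q = 0 ∧ (aeval (lpt lam z M) P).coeff (q + 1) ≠ 0 := by
    intro a
    by_cases ha : ∀ (z : Fin N → Qa) (M : Fin n × Fin (r + 1) → Qa),
        (∀ i s, ∑ j : Fin (r + 1), M (i, j) * ((Function.update x r a j s : ℚ) : Qa) = 0) →
        eval (Sum.elim (fun l => (z l : ℂ)) (TV.pt lam M)) P = 0 →
        ∀ s : ℂ, eval (Sum.elim (fun l => (z l : ℂ))
          (fun i => TV.pt lam M i + s * (M (i, Fin.last r) : ℂ))) P = 0
    · exact ⟨0, 0, 0, fun h => absurd ha h⟩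
    · have ha' := ha
      push Not at ha'
      obtain ⟨z, M, hM, h0, s, hs⟩ := ha'
      obtain ⟨q, hq1, hq2⟩ := exists_mult lam P z M h0 s hs
      exact ⟨z, M, q, fun _ => ⟨hM, hq1, hq2⟩⟩
  choose z M q hd using hdata
  obtain ⟨q0, hq0⟩ : ∃ q0, ∀ᶠ a in (U : Filter (Fin m → ℚ)), q a = q0 :=
    Ultrafilter.eventually_exists_iff.1 (Filter.Eventually.of_forall fun a => ⟨q a, rfl⟩)
  have hgp := generic_point' U hU (Lq q0) (GS lam P) x M z
    (hcon.mono fun a ha => (hd a ha).1) (by
      filter_upwards [hcon, hq0] with a ha hqa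
      rw [ev_GS, mem_Lq, ← hqa]
      exact (hd a ha).2.1)
  obtain ⟨a, ha, hqa, hgpa⟩ := (hcon.and (hq0.and hgp)).exists
  obtain ⟨-, -, hne⟩ := hd a ha
  rw [hqa] at hne
  obtain ⟨A, hA⟩ : ∃ A : Fin N ⊕ Fin n → Polynomial ℂ,
      A = fun t => aeval (lpt lam (z a) (M a)) (pderiv t P) := ⟨_, rfl⟩
  obtain ⟨g, hg⟩ : ∃ g : Fin n → ℂ, g = fun i => (A (Sum.inr i)).coeff q0 := ⟨_, rfl⟩
  obtain ⟨c, hc⟩ : ∃ c : Fin n → Qa, c = fun i => M a (i, Fin.last r) := ⟨_, rfl⟩
  -- the derivative in the direction of the line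
  have hgc : ∑ i, c i • g i ≠ 0 := by
    have h1 := congrArg (fun f => Polynomial.coeff f q0) (derivative_aeval (lpt lam (z a) (M a)) P)
    rw [Fintype.sum_sum_type, Polynomial.coeff_derivative, Polynomial.coeff_add,
      Polynomial.finsetSum_coeff, Polynomial.finsetSum_coeff] at h1
    have h2 : ∀ l, (aeval (lpt lam (z a) (M a)) (pderiv (Sum.inl l) P) *
        Polynomial.derivative (lpt lam (z a) (M a) (Sum.inl l))).coeff q0 = 0 := by
      intro l
      simp only [lpt, Sum.elim_inl, Polynomial.derivative_C, mul_zero, Polynomial.coeff_zero]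
    have h3 : ∀ i, (aeval (lpt lam (z a) (M a)) (pderiv (Sum.inr i) P) *
        Polynomial.derivative (lpt lam (z a) (M a) (Sum.inr i))).coeff q0 = c i • g i := by
      intro i
      have h4 : Polynomial.derivative (lpt lam (z a) (M a) (Sum.inr i)) =
          Polynomial.C (M a (i, Fin.last r) : ℂ) := by
        simp only [lpt, Sum.elim_inr, pt_lamS, Polynomial.derivative_add,
          Polynomial.derivative_C, Polynomial.derivative_C_mul, Polynomial.derivative_X,
          zero_add, mul_one]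
      rw [h4, Polynomial.coeff_mul_C, hg, hc, hA]
      show _ = (M a (i, Fin.last r) : ℂ) * _
      rw [mul_comm]
    rw [Finset.sum_eq_zero fun l _ => h2 l, zero_add, Finset.sum_congr rfl fun i _ => h3 i] at h1
    rw [← h1]
    refine mul_ne_zero hne ?_
    exact Nat.cast_add_one_ne_zero _
  -- the separating vector
  let R : Submodule Qa (Fin n → Qa) :=
    { carrier := {v | ∑ i, v i • g i = 0}
      zero_mem' := by simp
      add_mem' := by
        intro v w hv hw
        have hv' : ∑ i, v i • g i = 0 := hv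
        have hw' : ∑ i, w i • g i = 0 := hw
        show ∑ i, (v + w) i • g i = 0
        simp only [Pi.add_apply, add_smul, Finset.sum_add_distrib, hv', hw', add_zero]
      smul_mem' := by
        intro b v hv
        have hv' : ∑ i, v i • g i = 0 := hv
        show ∑ i, (b • v) i • g i = 0
        simp only [Pi.smul_apply, smul_eq_mul, mul_smul, ← Finset.smul_sum, hv', smul_zero] }
  obtain ⟨u, hu, huc⟩ := FC.exists_sep R c hgc
  obtain ⟨hfin, hfr⟩ := finrank_Tsp0 g u hu
  -- the space of the other terms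
  obtain ⟨e, he⟩ : ∃ e : Fin N ⊕ Fin n → ℂ, e = Sum.elim (fun l => (A (Sum.inl l)).coeff q0)
      (fun i => (A (Sum.inr i) * Polynomial.X).coeff q0) := ⟨_, rfl⟩
  have hVf : FiniteDimensional Qa (Submodule.span Qa (Set.range e)) :=
    FiniteDimensional.span_of_finite Qa (Set.finite_range e)
  have hVr : finrank Qa (Submodule.span Qa (Set.range e)) ≤ N + n := by
    have h1 := finrank_range_le_card (R := Qa) e
    rw [Fintype.card_sum, Fintype.card_fin, Fintype.card_fin] at h1
    exact h1
  have hcount := count0 (n := n) (m := m) (r := r) (v := N + n) (s' := n * (n + 1)) lam hlam hlog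
    (fun j => Function.update x r a j) g u c huc (Submodule.span Qa (Set.range e)) hVr hfin hfr
    (by
      intro ψ
      obtain ⟨T, h, hT, hL⟩ := hgpa ψ
      refine ⟨T, ∑ l, h l • e (Sum.inl l) + ∑ i, T (i, Fin.last r) • e (Sum.inr i), ?_, ?_, ?_⟩
      · exact Submodule.add_mem _
          (Submodule.sum_mem _ fun l _ => Submodule.smul_mem _ _ (Submodule.subset_span ⟨_, rfl⟩))
          (Submodule.sum_mem _ fun i _ => Submodule.smul_mem _ _ (Submodule.subset_span ⟨_, rfl⟩))
      · intro i s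
        rw [hc]
        exact hT i s
      · rw [dv_GS, mem_Lq, Polynomial.coeff_add, Polynomial.finsetSum_coeff,
          Polynomial.finsetSum_coeff] at hL
        have h1 : ∀ l, (aeval (lpt lam (z a) (M a)) (pderiv (Sum.inl l) P) *
            Polynomial.C (h l : ℂ)).coeff q0 = h l • e (Sum.inl l) := by
          intro l
          rw [Polynomial.coeff_mul_C, he, hA]
          show _ = (h l : ℂ) * _
          rw [mul_comm]
          rfl
        have h2 : ∀ i, (aeval (lpt lam (z a) (M a)) (pderiv (Sum.inr i) P) *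
            TV.pt (lamS lam) T i).coeff q0 = g i * TV.pt lam T i +
              T (i, Fin.last r) • e (Sum.inr i) := by
          intro i
          rw [pt_lamS, mul_add, Polynomial.coeff_add, Polynomial.coeff_mul_C, hg, he, hA]
          congr 1
          rw [mul_left_comm, Polynomial.coeff_C_mul]
          rfl
        rw [Finset.sum_congr rfl fun l _ => h1 l, Finset.sum_congr rfl fun i _ => h2 i,
          Finset.sum_add_distrib] at hL
        rw [← hL]
        ring)
  have h5 : n * (n + 2) = n * (n + 1) + n := by ring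
  omega

end MP60829e.FQ
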