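import Pool.Agent.Lib.MP_60829e_nt.FQ.Col

/-! # Q-infinity: the descent -/

open MvPolynomial Module

namespace MP60829e.FQ

open MP60829e.ST (Qa Lsp Lt)
open MP60829e.FC (Xr Gen)

private theorem eval_poly {σ : Type} (P : MvPolynomial σ ℂ) (f : σ → Polynomial ℂ) (u : ℂ) :
    Polynomial.eval u (aeval f P) = eval (fun s => Polynomial.eval u (f s)) P := by
  induction P using MvPolynomial.induction_on with
  | C a => rw [algHom_C, eval_C, Polynomial.algebraMap_eq, Polynomial.eval_C]
  | add p q hp hq => rw [map_add, map_add, Polynomial.eval_add, hp, hq]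
  | mul_X p i hp => rw [map_mul, map_mul, Polynomial.eval_mul, hp, aeval_X, eval_X]

/-- A polynomial which vanishes at infinitely many points of a curve vanishes on the curve. -/
private theorem zero_of_infinite {σ : Type} (P : MvPolynomial σ ℂ) (f : σ → Polynomial ℂ)
    (S : Set ℂ) (hS : S.Infinite)
    (h : ∀ u ∈ S, eval (fun s => Polynomial.eval u (f s)) P = 0) (u : ℂ) :
    eval (fun s => Polynomial.eval u (f s)) P = 0 := by
  have h1 : aeval f P = 0 := by
    refine Polynomial.eq_zero_of_infinite_isRoot _ (hS.mono fun u hu => ?_)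
    change Polynomial.eval u (aeval f P) = 0
    rw [eval_poly]
    exact h u hu
  rw [← eval_poly, h1, Polynomial.eval_zero]

private theorem eval_ext {σ τ : Type} (P : MvPolynomial σ ℂ) (f : σ → MvPolynomial τ ℂ)
    (x : τ → ℂ) : eval x (aeval f P) = eval (fun s => eval x (f s)) P := by
  induction P using MvPolynomial.induction_on with
  | C a => rw [algHom_C, eval_C, MvPolynomial.algebraMap_eq, eval_C]
  | add p q hp hq => rw [map_add, map_add, map_add, hp, hq]
  | mul_X p i hp => rw [map_mul, map_mul, map_mul, hp, aeval_X, eval_X]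

/-- `P (z, ι_* X)`. -/
private noncomputable def PA {N n n' : ℕ} (ι : Fin n' ↪ Fin n)
    (P : MvPolynomial (Fin N ⊕ Fin n) ℂ) : MvPolynomial (Fin N ⊕ Fin n') ℂ :=
  aeval (Sum.elim (fun l => X (Sum.inl l))
    (fun i => Function.extend ι (fun j => (X (Sum.inr j) : MvPolynomial (Fin N ⊕ Fin n') ℂ)) 0 i)) P

/-- `P (z, c + ι_* X)`. -/
private noncomputable def PB {N n n' : ℕ} (ι : Fin n' ↪ Fin n)
    (P : MvPolynomial (Fin N ⊕ Fin n) ℂ) : MvPolynomial (Fin (N + n) ⊕ Fin n') ℂ :=
  aeval (Sum.elim (fun l => X (Sum.inl (Fin.castAdd n l)))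
    (fun i => X (Sum.inl (Fin.natAdd N i)) +
      Function.extend ι (fun j => (X (Sum.inr j) : MvPolynomial (Fin (N + n) ⊕ Fin n') ℂ)) 0 i)) P

private theorem eval_extend {τ : Type} {n n' : ℕ} (ι : Fin n' ↪ Fin n) (y : τ → ℂ)
    (f : Fin n' → MvPolynomial τ ℂ) (i : Fin n) :
    eval y (Function.extend ι f 0 i) = Function.extend ι (fun j => eval y (f j)) 0 i := by
  by_cases h : ∃ j, ι j = i
  · obtain ⟨j, rfl⟩ := h
    rw [ι.injective.extend_apply, ι.injective.extend_apply]
  · rw [Function.extend_apply' _ _ _ h, Function.extend_apply' _ _ _ h, Pi.zero_apply,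
      Pi.zero_apply, map_zero]

private theorem eval_PA {N n n' : ℕ} (ι : Fin n' ↪ Fin n) (P : MvPolynomial (Fin N ⊕ Fin n) ℂ)
    (z : Fin N → Qa) (x : Fin n' → ℂ) :
    eval (Sum.elim (fun l => (z l : ℂ)) x) (PA ι P) = eval (pw z 0 ι x) P := by
  unfold PA pw
  rw [eval_ext]
  congr 2
  funext s
  rcases s with l | i
  · rw [Sum.elim_inl, eval_X, Sum.elim_inl, Sum.elim_inl]
  · rw [Sum.elim_inr, Sum.elim_inr, eval_extend, Pi.zero_apply]
    simp only [eval_X, Sum.elim_inr]
    rw [ZeroMemClass.coe_zero, zero_add]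

private theorem eval_PB {N n n' : ℕ} (ι : Fin n' ↪ Fin n) (P : MvPolynomial (Fin N ⊕ Fin n) ℂ)
    (z : Fin N → Qa) (c : Fin n → Qa) (x : Fin n' → ℂ) :
    eval (Sum.elim (fun l => ((Fin.append z c l : Qa) : ℂ)) x) (PB ι P) =
      eval (pw z c ι x) P := by
  unfold PB pw
  rw [eval_ext]
  congr 2
  funext s
  rcases s with l | i
  · rw [Sum.elim_inl, eval_X, Sum.elim_inl, Sum.elim_inl, Fin.append_left]
  · rw [Sum.elim_inr, Sum.elim_inr, map_add, eval_extend, eval_X, Sum.elim_inl, Fin.append_right]
    simp only [eval_X, Sum.elim_inr]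

/-- PROOF. An independent family in `X` whose span is disjoint from `X` is empty; then `v = w`. -/
theorem goodP_base {N n : ℕ} (P : MvPolynomial (Fin N ⊕ Fin n) ℂ) (X : Submodule Qa ℂ) :
    GoodP P X X := by
  intro n' ι z c _ w hw hli hd h0 v
  cases n' with
  | zero =>
    rw [Subsingleton.elim v w]
    exact h0
  | succ k =>
    exfalso
    exact hli.ne_zero 0
      ((Submodule.disjoint_def.1 hd) (w 0) (Submodule.subset_span ⟨0, rfl⟩) (hw 0))

/-- PROOF. `n' = n`, `ι` the identity, `c = 0`. -/
theorem goodP_main {N n : ℕ} {P : MvPolynomial (Fin N ⊕ Fin n) ℂ} {X V : Submodule Qa ℂ}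
    (h : GoodP P X V) (z : Fin N → Qa) (w : Fin n → ℂ) (hw : ∀ j, w j ∈ X)
    (hli : LinearIndependent Qa w) (hd : Disjoint (Submodule.span Qa (Set.range w)) V)
    (h0 : eval (Sum.elim (fun l => (z l : ℂ)) w) P = 0) (v : Fin n → ℂ) :
    eval (Sum.elim (fun l => (z l : ℂ)) v) P = 0 := by
  have h1 : ∀ y : Fin n → ℂ, pw z 0 (Function.Embedding.refl _) y =
      Sum.elim (fun l => (z l : ℂ)) y := by
    intro y
    unfold pw
    congr 1
    funext i
    have h2 := (Function.Embedding.refl (Fin n)).injective.extend_apply y 0 i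
    rw [Function.Embedding.refl_apply] at h2
    rw [Pi.zero_apply, ZeroMemClass.coe_zero, zero_add, h2]
  have h2 := h n (Function.Embedding.refl _) z 0 (fun _ => rfl) w hw hli hd
    (by rw [h1]; exact h0) v
  rw [h1] at h2
  exact h2

/-- The conclusion of the column lemma for all the restrictions of `P`. -/
private def ColP {N n m r : ℕ} (lam : ℕ → ℂ) (x : ℕ → Fin m → ℚ)
    (P : MvPolynomial (Fin N ⊕ Fin n) ℂ) (a : Fin m → ℚ) (n' : ℕ) (ι : Fin n' ↪ Fin n) : Prop :=
  ∀ (z : Fin N → Qa) (c : Fin n → Qa), (n' = n → c = 0) → ∀ M : Fin n' × Fin (r + 1) → Qa,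
    (∀ i s, ∑ j : Fin (r + 1), M (i, j) * ((Function.update x r a j s : ℚ) : Qa) = 0) →
    eval (pw z c ι (TV.pt (fun j : Fin (r + 1) => lam j) M)) P = 0 →
    ∀ s : ℂ, eval (pw z c ι (fun i => TV.pt (fun j : Fin (r + 1) => lam j) M i +
      s * (M (i, Fin.last r) : ℂ))) P = 0

private theorem col_all {N n m r : ℕ} (hm : N + n * (n + 2) + 1 ≤ m) (lam : ℕ → ℂ)
    (hlam : LinearIndependent Qa lam) (hlog : ∀ j, lam j ∈ Lsp) (x : ℕ → Fin m → ℚ)
    (U : Ultrafilter (Fin m → ℚ)) (hU : Gen U) (P : MvPolynomial (Fin N ⊕ Fin n) ℂ) :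
    ∀ᶠ a in (U : Filter (Fin m → ℚ)), ∀ (n' : ℕ) (ι : Fin n' ↪ Fin n),
      ColP (r := r) lam x P a n' ι := by
  have hlam' : LinearIndependent Qa (fun j : Fin (r + 1) => lam j) :=
    hlam.comp _ Fin.val_injective
  have h1 : ∀ (n' : Fin (n + 1)) (ι : Fin (n' : ℕ) ↪ Fin n),
      ∀ᶠ a in (U : Filter (Fin m → ℚ)), ColP (r := r) lam x P a n' ι := by
    rintro ⟨n', hn'⟩ ι
    dsimp only at ι ⊢
    by_cases hnn : n' = n
    · subst hnn
      filter_upwards [col hm (fun j : Fin (r + 1) => lam j) hlam' (fun j => hlog j) x U hU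
        (PA ι P)] with a ha z c hc M hM h0 s
      rw [hc rfl] at h0 ⊢
      rw [← eval_PA] at h0 ⊢
      exact ha z M hM h0 s
    · have hlt : n' + 1 ≤ n := by omega
      have hm' : (N + n) + n' * (n' + 2) + 1 ≤ m := by
        refine le_trans ?_ hm
        have h2 : (n' + 1) * (n' + 1) ≤ n * n := Nat.mul_le_mul hlt hlt
        nlinarith
      filter_upwards [col hm' (fun j : Fin (r + 1) => lam j) hlam' (fun j => hlog j) x U hU
        (PB ι P)] with a ha z c hc M hM h0 s
      rw [← eval_PB] at h0 ⊢
      exact ha (Fin.append z c) M hM h0 s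
  have h2 : ∀ᶠ a in (U : Filter (Fin m → ℚ)), ∀ (n' : Fin (n + 1)) (ι : Fin (n' : ℕ) ↪ Fin n),
      ColP (r := r) lam x P a n' ι :=
    Filter.eventually_all.2 fun n' => Filter.eventually_all.2 fun ι => h1 n' ι
  filter_upwards [h2] with a ha n' ι
  have h3 : n' < n + 1 := by
    have h4 := Fintype.card_le_of_embedding ι
    rw [Fintype.card_fin, Fintype.card_fin] at h4
    omega
  exact ha ⟨n', h3⟩ ι

/-- PROOF. Lemma B of 3875, from `col` applied to the finitely many polynomials
`P_ι (z, c; X) = P (z, c + ι_* X)` (`n' < n`: `N + n` parameters) and `P (z, ι_* X)` (`n' = n`). -/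
theorem goodP_step {N n m r : ℕ} (hm : N + n * (n + 2) + 1 ≤ m) (lam : ℕ → ℂ)
    (hlam : LinearIndependent Qa lam) (hlog : ∀ j, lam j ∈ Lsp) (x : ℕ → Fin m → ℚ)
    (U : Ultrafilter (Fin m → ℚ)) (hU : Gen U) (P : MvPolynomial (Fin N ⊕ Fin n) ℂ)
    (V : Submodule Qa ℂ) (h : GoodP P (Xr lam x r) V) :
    ∀ᶠ a in (U : Filter (Fin m → ℚ)), GoodP P (Xr lam (Function.update x r a) (r + 1)) V := by
  classical
  filter_upwards [col_all (r := r) hm lam hlam hlog x U hU P] with a ha
  intro n' ι z c hc w hw hli hd h0
  -- the matrix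
  have hw' : ∀ i, ∃ cc : Fin (r + 1) → Qa,
      (∀ s, ∑ j, cc j * ((Function.update x r a j s : ℚ) : Qa) = 0) ∧
        w i = ∑ j, cc j • lam j := fun i => hw i
  choose M0 hM0 hM0' using hw'
  obtain ⟨M, hM⟩ : ∃ M : Fin n' × Fin (r + 1) → Qa, M = fun p => M0 p.1 p.2 := ⟨_, rfl⟩
  have hMw : TV.pt (fun j : Fin (r + 1) => lam j) M = w := by
    funext i
    rw [hM0' i, hM]
    rfl
  have hM1 : ∀ i s, ∑ j : Fin (r + 1), M (i, j) * ((Function.update x r a j s : ℚ) : Qa) = 0 := by
    intro i s
    rw [hM]
    exact hM0 i s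
  have hline := ha n' ι z c hc M hM1 (by rw [hMw]; exact h0)
  rw [hMw] at hline
  obtain ⟨d, hdd⟩ : ∃ d : Fin n' → Qa, d = fun i => M (i, Fin.last r) := ⟨_, rfl⟩
  have hline' : ∀ s : ℂ, eval (pw z c ι (fun i => w i + s * (d i : ℂ))) P = 0 := by
    intro s
    rw [hdd]
    exact hline s
  -- elements with last coordinate zero
  have hlast : ∀ cc : Fin (r + 1) → Qa, cc (Fin.last r) = 0 →
      (∀ s, ∑ j, cc j * ((Function.update x r a j s : ℚ) : Qa) = 0) →
      ∑ j, cc j • (fun j : Fin (r + 1) => lam j) j ∈ Xr lam x r := by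
    intro cc hcc hcs
    refine ⟨fun j => cc j.castSucc, fun s => ?_, ?_⟩
    · have h1 := hcs s
      rw [Fin.sum_univ_castSucc, hcc, zero_mul, add_zero] at h1
      rw [← h1]
      refine Finset.sum_congr rfl fun j _ => ?_
      rw [Function.update_of_ne]
      · rfl
      · rw [Fin.val_castSucc]
        exact (Fin.is_lt j).ne
    · rw [Fin.sum_univ_castSucc, hcc, zero_smul, add_zero]
      rfl
  by_cases hd0 : ∀ i, d i = 0
  · -- all the numbers are in `Xr lam x r`
    refine h n' ι z c hc w (fun i => ?_) hli hd h0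
    rw [hM0' i]
    refine hlast (M0 i) ?_ (hM0 i)
    have h1 := hd0 i
    rw [hdd, hM] at h1
    exact h1
  · push Not at hd0
    obtain ⟨j0, hj0⟩ := hd0
    cases n' with
    | zero => exact j0.elim0
    | succ k =>
      intro v
      obtain ⟨q, hq⟩ : ∃ q : Fin k → Qa, q = fun j => d (j0.succAbove j) / d j0 := ⟨_, rfl⟩
      obtain ⟨w', hw'⟩ : ∃ w' : Fin k → ℂ, w' = fun j => w (j0.succAbove j) - q j • w j0 :=
        ⟨_, rfl⟩
      have hw'X : ∀ j, w' j ∈ Xr lam x r := by
        intro j
        have h1 : w' j = ∑ j', (M0 (j0.succAbove j) j' - q j * M0 j0 j') •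
            (fun j : Fin (r + 1) => lam j) j' := by
          rw [hw']
          dsimp only
          rw [hM0' (j0.succAbove j), hM0' j0, Finset.smul_sum, ← Finset.sum_sub_distrib]
          refine Finset.sum_congr rfl fun j' _ => ?_
          rw [sub_smul, mul_smul]
        rw [h1]
        refine hlast _ ?_ fun s => ?_
        · have h2 : M0 (j0.succAbove j) (Fin.last r) = d (j0.succAbove j) := by
            rw [hdd, hM]
          have h3 : M0 j0 (Fin.last r) = d j0 := by
            rw [hdd, hM]
          rw [h2, h3, hq]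
          dsimp only
          rw [div_mul_cancel₀ _ hj0, sub_self]
        · simp only [sub_mul, Finset.sum_sub_distrib, mul_assoc, ← Finset.mul_sum]
          rw [hM0 (j0.succAbove j) s, hM0 j0 s, mul_zero, sub_zero]
      have hw'span : ∀ j, w' j ∈ Submodule.span Qa (Set.range w) := by
        intro j
        rw [hw']
        exact Submodule.sub_mem _ (Submodule.subset_span ⟨_, rfl⟩)
          (Submodule.smul_mem _ _ (Submodule.subset_span ⟨_, rfl⟩))
      have hli' : LinearIndependent Qa w' := by
        rw [Fintype.linearIndependent_iff]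
        intro b hb j
        have h1 : ∑ i, (j0.insertNth (α := fun _ => Qa) (-∑ j, b j * q j) b) i • w i = 0 := by
          rw [Fin.sum_univ_succAbove _ j0, Fin.insertNth_apply_same]
          simp only [Fin.insertNth_apply_succAbove]
          rw [← hb, hw', neg_smul, Finset.sum_smul]
          simp only [smul_sub, Finset.sum_sub_distrib, mul_smul]
          ring
        have h2 := (Fintype.linearIndependent_iff.1 hli) _ h1 (j0.succAbove j)
        rw [Fin.insertNth_apply_succAbove] at h2
        exact h2
      have hd' : Disjoint (Submodule.span Qa (Set.range w')) V := by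
        refine hd.mono_left (Submodule.span_le.2 ?_)
        rintro _ ⟨j, rfl⟩
        exact hw'span j
      obtain ⟨ι', hι'⟩ : ∃ ι' : Fin k ↪ Fin n, ι' = (Fin.succAboveEmb j0).trans ι := ⟨_, rfl⟩
      have hι'a : ∀ j, ι' j = ι (j0.succAbove j) := by
        intro j
        rw [hι']
        rfl
      have hkn : k ≠ n := by
        have h4 := Fintype.card_le_of_embedding ι
        rw [Fintype.card_fin, Fintype.card_fin] at h4
        omega
      -- the comparison of the points
      have hpt : ∀ (t : Qa) (y : Fin k → ℂ),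
          pw z (fun i => c i + Function.extend ι (fun j => t * d j) 0 i) ι' y =
            pw z c ι (j0.insertNth (α := fun _ => ℂ) ((t * d j0 : Qa) : ℂ)
              (fun j => y j + ((t * d (j0.succAbove j) : Qa) : ℂ))) := by
        intro t y
        unfold pw
        congr 1
        funext i
        beta_reduce
        by_cases hi : ∃ j, ι j = i
        · obtain ⟨j, rfl⟩ := hi
          rw [ι.injective.extend_apply, ι.injective.extend_apply]
          obtain hj | ⟨j', rfl⟩ := Fin.eq_self_or_eq_succAbove j0 j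
          · subst hj
            rw [Fin.insertNth_apply_same]
            have h5 : ¬ ∃ j', ι' j' = ι j := by
              rintro ⟨j', hj'⟩
              rw [hι'a] at hj'
              exact Fin.succAbove_ne _ _ (ι.injective hj')
            rw [Function.extend_apply' _ _ _ h5, Pi.zero_apply, add_zero]
            rfl
          · rw [Fin.insertNth_apply_succAbove, ← hι'a, ι'.injective.extend_apply]
            push_cast
            ring
        · rw [Function.extend_apply' _ _ _ hi, Function.extend_apply' _ _ _ hi]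
          have h5 : ¬ ∃ j', ι' j' = i := by
            rintro ⟨j', hj'⟩
            rw [hι'a] at hj'
            exact hi ⟨_, hj'⟩
          rw [Function.extend_apply' _ _ _ h5]
          simp only [Pi.zero_apply, add_zero]
      have hj0' : (d j0 : ℂ) ≠ 0 := by
        intro h5
        exact hj0 (by exact_mod_cast h5)
      have key : ∀ (t : Qa) (y : Fin k → ℂ), eval (pw z c ι
          (j0.insertNth (α := fun _ => ℂ) ((t * d j0 : Qa) : ℂ)
            (fun j => y j + ((t * d (j0.succAbove j) : Qa) : ℂ)))) P = 0 := by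
        intro t y
        rw [← hpt]
        refine h k ι' z _ (fun hk => absurd hk hkn) w' hw'X hli' hd' ?_ y
        rw [hpt]
        have h5 : (j0.insertNth (α := fun _ => ℂ) ((t * d j0 : Qa) : ℂ)
            (fun j => w' j + ((t * d (j0.succAbove j) : Qa) : ℂ))) =
            fun i => w i + ((t : ℂ) - w j0 / (d j0 : ℂ)) * (d i : ℂ) := by
          funext i
          obtain hj | ⟨j', rfl⟩ := Fin.eq_self_or_eq_succAbove j0 i
          · subst hj
            rw [Fin.insertNth_apply_same]
            push_cast
            field_simp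
            ring
          · rw [Fin.insertNth_apply_succAbove, hw', hq]
            have h6 : (d (j0.succAbove j') / d j0) • w j0 =
                ((d (j0.succAbove j') : ℂ) / (d j0 : ℂ)) * w j0 := by
              rfl
            dsimp only
            rw [h6]
            push_cast
            field_simp
            ring
        rw [h5]
        exact hline' _
      -- a polynomial in one variable
      obtain ⟨f, hf⟩ : ∃ f : Fin N ⊕ Fin n → Polynomial ℂ, f = Sum.elim
          (fun l => Polynomial.C (z l : ℂ))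
          (fun i => if i = ι j0 then Polynomial.C (c i : ℂ) + Polynomial.X
            else Polynomial.C ((c i : ℂ) + Function.extend ι v 0 i)) := ⟨_, rfl⟩
      have hf1 : ∀ u : ℂ, (fun s => Polynomial.eval u (f s)) =
          pw z c ι (Function.update v j0 u) := by
        intro u
        funext s
        rw [hf]
        unfold pw
        rcases s with l | i
        · simp only [Sum.elim_inl, Polynomial.eval_C]
        · simp only [Sum.elim_inr]
          by_cases hi : i = ι j0
          · subst hi
            rw [if_pos rfl, ι.injective.extend_apply, Function.update_self, Polynomial.eval_add,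
              Polynomial.eval_C, Polynomial.eval_X]
          · rw [if_neg hi, Polynomial.eval_C]
            congr 1
            by_cases hi' : ∃ j, ι j = i
            · obtain ⟨j, rfl⟩ := hi'
              rw [ι.injective.extend_apply, ι.injective.extend_apply, Function.update_of_ne]
              intro h7
              exact hi (by rw [h7])
            · rw [Function.extend_apply' _ _ _ hi', Function.extend_apply' _ _ _ hi']
      have hfin := zero_of_infinite P f (Set.range fun t : Qa => ((t * d j0 : Qa) : ℂ)) ?_ ?_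
        (v j0)
      · rw [hf1, Function.update_eq_self] at hfin
        exact hfin
      · refine Set.infinite_range_of_injective ?_
        intro t t' htt
        have h7 : (t * d j0 : Qa) = t' * d j0 := by
          exact Subtype.ext htt
        exact mul_right_cancel₀ hj0 h7
      · rintro _ ⟨t, rfl⟩
        rw [hf1]
        have h7 := key t (fun j => v (j0.succAbove j) - ((t * d (j0.succAbove j) : Qa) : ℂ))
        have h8 : (j0.insertNth (α := fun _ => ℂ) ((t * d j0 : Qa) : ℂ)
            (fun j => v (j0.succAbove j) - ((t * d (j0.succAbove j) : Qa) : ℂ) +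
              ((t * d (j0.succAbove j) : Qa) : ℂ))) =
            Function.update v j0 ((t * d j0 : Qa) : ℂ) := by
          funext i
          obtain hj | ⟨j', rfl⟩ := Fin.eq_self_or_eq_succAbove j0 i
          · subst hj
            rw [Fin.insertNth_apply_same, Function.update_self]
          · rw [Fin.insertNth_apply_succAbove, Function.update_of_ne (Fin.succAbove_ne _ _),
              sub_add_cancel]
        rw [h8] at h7
        exact h7

end MP60829e.FQ
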