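import Pool.Agent.Lib.MP_60829e_nt.FC.StepA

/-! # Rational points of `Xr` -/

open Module

namespace MP60829e.FQ

open MP60829e.ST (Qa Lsp Lt)
open MP60829e.FC (Xr)

/-- The rational combinations in `Xr`. -/
noncomputable def XQ (lam : ℕ → ℂ) {m : ℕ} (x : ℕ → Fin m → ℚ) (r : ℕ) : Submodule ℚ ℂ where
  carrier := {z | ∃ c : Fin r → ℚ, (∀ s, ∑ j, c j * x j s = 0) ∧ z = ∑ j, (c j : ℂ) * lam j}
  zero_mem' := ⟨0, fun s => by simp, by simp⟩
  add_mem' := by
    rintro _ _ ⟨c, hc, rfl⟩ ⟨d, hd, rfl⟩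
    refine ⟨c + d, fun s => ?_, ?_⟩
    · simp only [Pi.add_apply, add_mul, Finset.sum_add_distrib, hc s, hd s, add_zero]
    · simp only [Pi.add_apply, Rat.cast_add, add_mul, Finset.sum_add_distrib]
  smul_mem' := by
    rintro q _ ⟨c, hc, rfl⟩
    refine ⟨q • c, fun s => ?_, ?_⟩
    · simp only [Pi.smul_apply, smul_eq_mul, mul_assoc, ← Finset.mul_sum, hc s, mul_zero]
    · simp only [Pi.smul_apply, smul_eq_mul, Rat.cast_mul, mul_assoc, ← Finset.mul_sum]
      exact Rat.smul_def _ _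

theorem mem_XQ {lam : ℕ → ℂ} {m : ℕ} {x : ℕ → Fin m → ℚ} {r : ℕ} {z : ℂ} :
    z ∈ XQ lam x r ↔ ∃ c : Fin r → ℚ, (∀ s, ∑ j, c j * x j s = 0) ∧
      z = ∑ j, (c j : ℂ) * lam j := Iff.rfl

theorem XQ_le (lam : ℕ → ℂ) {m : ℕ} (x : ℕ → Fin m → ℚ) (r : ℕ) :
    XQ lam x r ≤ Submodule.span ℚ (Set.range fun j : Fin r => lam j) := by
  rintro _ ⟨c, -, rfl⟩
  refine Submodule.sum_mem _ fun j _ => ?_
  rw [← Rat.smul_def]
  exact Submodule.smul_mem _ _ (Submodule.subset_span ⟨j, rfl⟩)

theorem finite_XQ (lam : ℕ → ℂ) {m : ℕ} (x : ℕ → Fin m → ℚ) (r : ℕ) :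
    FiniteDimensional ℚ (XQ lam x r) := by
  have : FiniteDimensional ℚ (Submodule.span ℚ (Set.range fun j : Fin r => lam j)) :=
    FiniteDimensional.span_of_finite ℚ (Set.finite_range _)
  exact Submodule.finiteDimensional_of_le (XQ_le lam x r)

theorem Xr_le_span (lam : ℕ → ℂ) {m : ℕ} (x : ℕ → Fin m → ℚ) (r : ℕ) :
    Xr lam x r ≤ Submodule.span Qa (XQ lam x r : Set ℂ) := by
  classical
  rintro _ ⟨c, hc, rfl⟩
  obtain ⟨e⟩ : Nonempty (Basis (Basis.ofVectorSpaceIndex ℚ Qa) ℚ Qa) :=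
    ⟨Basis.ofVectorSpace ℚ Qa⟩
  obtain ⟨T, hT⟩ : ∃ T : Finset (Basis.ofVectorSpaceIndex ℚ Qa),
      ∀ j, (e.repr (c j)).support ⊆ T :=
    ⟨Finset.univ.biUnion fun j => (e.repr (c j)).support, fun j =>
      Finset.subset_biUnion_of_mem (fun j => (e.repr (c j)).support) (Finset.mem_univ j)⟩
  have hcj : ∀ j, c j = ∑ t ∈ T, (e.repr (c j) t) • e t := by
    intro j
    conv_lhs => rw [← e.linearCombination_repr (c j)]
    rw [Finsupp.linearCombination_apply, Finsupp.sum_of_support_subset _ (hT j) _ (by simp)]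
  have hz : ∑ j, c j • lam j = ∑ t ∈ T, e t • ∑ j : Fin r, ((e.repr (c j) t : ℚ) : ℂ) * lam j := by
    simp_rw [Finset.smul_sum]
    rw [Finset.sum_comm]
    refine Finset.sum_congr rfl fun j _ => ?_
    conv_lhs => rw [hcj j, Finset.sum_smul]
    refine Finset.sum_congr rfl fun t _ => ?_
    rw [← Rat.smul_def, smul_comm, smul_assoc]
  rw [hz]
  refine Submodule.sum_mem _ fun t _ => Submodule.smul_mem _ _ (Submodule.subset_span ?_)
  refine ⟨fun j => e.repr (c j) t, fun s => ?_, rfl⟩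
  have h1 := congrArg (fun q => e.repr q t) (hc s)
  simp only [map_sum, map_zero, Finsupp.coe_zero, Pi.zero_apply, Finsupp.coe_finsetSum,
    Finset.sum_apply] at h1
  rw [← h1]
  refine Finset.sum_congr rfl fun j _ => ?_
  have h2 : c j * ((x j s : ℚ) : Qa) = (x j s) • c j := by
    rw [Algebra.smul_def, mul_comm]
    rfl
  rw [h2, map_smul, Finsupp.smul_apply, smul_eq_mul, mul_comm]

/-- Disjoint rational spaces span disjoint spaces. -/
theorem disjoint_span (lam : ℕ → ℂ) (hlam : LinearIndependent Qa lam) (A B : Submodule ℚ ℂ)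
    (hA : A ≤ Submodule.span ℚ (Set.range lam)) (hB : B ≤ Submodule.span ℚ (Set.range lam))
    (h : Disjoint A B) :
    Disjoint (Submodule.span Qa (A : Set ℂ)) (Submodule.span Qa (B : Set ℂ)) := by
  classical
  obtain ⟨e⟩ : Nonempty (Basis (Basis.ofVectorSpaceIndex ℚ Qa) ℚ Qa) :=
    ⟨Basis.ofVectorSpace ℚ Qa⟩
  obtain ⟨b, hb⟩ : ∃ b : Basis ℕ Qa (Submodule.span Qa (Set.range lam)), ∀ j, (b j : ℂ) = lam j :=
    ⟨Basis.span hlam, fun j => congrArg Subtype.val (Basis.span_apply hlam j)⟩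
  have hle : Submodule.span ℚ (Set.range lam) ≤
      (Submodule.span Qa (Set.range lam)).restrictScalars ℚ := by
    rw [Submodule.span_le]
    rintro _ ⟨j, rfl⟩
    exact Submodule.subset_span ⟨j, rfl⟩
  -- the coordinates
  let ρ : Basis.ofVectorSpaceIndex ℚ Qa → (Submodule.span Qa (Set.range lam)) →ₗ[ℚ] ℂ :=
    fun t => (Finsupp.linearCombination ℚ lam) ∘ₗ
      (Finsupp.mapRange.linearMap (e.coord t)) ∘ₗ (b.repr.toLinearMap.restrictScalars ℚ)
  have hρb : ∀ t (q : Qa) j, ρ t (q • b j) = (e.coord t q) • lam j := by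
    intro t q j
    simp only [ρ, LinearMap.comp_apply, LinearMap.restrictScalars_apply,
      LinearEquiv.coe_toLinearMap, map_smul, Basis.repr_self, Finsupp.smul_single, smul_eq_mul,
      mul_one, Finsupp.mapRange.linearMap_apply, Finsupp.mapRange_single,
      Finsupp.linearCombination_single]
  have hρ1 : ∀ t (q : Qa) (w : Submodule.span Qa (Set.range lam)),
      (w : ℂ) ∈ Submodule.span ℚ (Set.range lam) → ρ t (q • w) = (e.coord t q) • (w : ℂ) := by
    intro t q w hw
    obtain ⟨c, hc⟩ := Finsupp.mem_span_range_iff_exists_finsupp.1 hw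
    have hw' : w = ∑ j ∈ c.support, ((c j : ℚ)) • b j := by
      apply Subtype.ext
      rw [← hc, Finsupp.sum, Submodule.coe_sum]
      refine Finset.sum_congr rfl fun j _ => ?_
      rw [Submodule.coe_smul_of_tower, hb]
    have h1 : q • w = ∑ j ∈ c.support, ((c j : ℚ)) • (q • b j) := by
      rw [hw', Finset.smul_sum]
      exact Finset.sum_congr rfl fun j _ => smul_comm _ _ _
    rw [h1, map_sum, ← hc, Finsupp.sum, Finset.smul_sum]
    refine Finset.sum_congr rfl fun j _ => ?_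
    rw [map_smul, hρb, smul_comm]
  have hρ2 : ∀ z, (∀ t, ρ t z = 0) → z = 0 := by
    intro z hz
    have hQ : LinearIndependent ℚ lam := hlam.restrict_scalars' ℚ
    have h2 : b.repr z = 0 := by
      ext j
      have h3 : e.repr (b.repr z j) = 0 := by
        ext t
        have h4 := hz t
        simp only [ρ, LinearMap.comp_apply] at h4
        have h5 := linearIndependent_iff.1 hQ _ h4
        have h6 := congrArg (fun f => f j) h5
        simpa using h6
      have h7 : b.repr z j = 0 := by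
        rw [← e.repr.map_eq_zero_iff]
        exact h3
      rw [h7]
      rfl
    exact b.repr.map_eq_zero_iff.1 h2
  have key : ∀ (C : Submodule ℚ ℂ), C ≤ Submodule.span ℚ (Set.range lam) →
      ∀ z ∈ Submodule.span Qa (C : Set ℂ), ∃ hz : z ∈ Submodule.span Qa (Set.range lam),
        ∀ t (q : Qa), ρ t (q • ⟨z, hz⟩) ∈ C := by
    intro C hC z hz
    induction hz using Submodule.span_induction with
    | mem z hz =>
      refine ⟨hle (hC hz), fun t q => ?_⟩
      rw [hρ1 t q _ (hC hz)]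
      exact C.smul_mem _ hz
    | zero =>
      refine ⟨Submodule.zero_mem _, fun t q => ?_⟩
      have : (q • (⟨0, Submodule.zero_mem _⟩ : Submodule.span Qa (Set.range lam))) = 0 := by
        apply Subtype.ext
        simp
      rw [this, map_zero]
      exact C.zero_mem
    | add z z' _ _ h1 h2 =>
      obtain ⟨hz, h1⟩ := h1
      obtain ⟨hz', h2⟩ := h2
      refine ⟨Submodule.add_mem _ hz hz', fun t q => ?_⟩
      have : (q • (⟨z + z', Submodule.add_mem _ hz hz'⟩ : Submodule.span Qa (Set.range lam))) =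
          q • ⟨z, hz⟩ + q • ⟨z', hz'⟩ := by
        apply Subtype.ext
        simp [smul_add]
      rw [this, map_add]
      exact C.add_mem (h1 t q) (h2 t q)
    | smul p z _ h1 =>
      obtain ⟨hz, h1⟩ := h1
      refine ⟨Submodule.smul_mem _ _ hz, fun t q => ?_⟩
      have : (q • (⟨p • z, Submodule.smul_mem _ _ hz⟩ : Submodule.span Qa (Set.range lam))) =
          (q * p) • ⟨z, hz⟩ := by
        apply Subtype.ext
        simp [mul_smul]
      rw [this]
      exact h1 t (q * p)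
  rw [Submodule.disjoint_def]
  intro z hzA hzB
  obtain ⟨hz, h1⟩ := key A hA z hzA
  obtain ⟨_, h2⟩ := key B hB z hzB
  have h3 : (⟨z, hz⟩ : Submodule.span Qa (Set.range lam)) = 0 := by
    apply hρ2
    intro t
    have h4 := h1 t 1
    have h5 := h2 t 1
    rw [one_smul] at h4 h5
    exact (Submodule.disjoint_def.1 h) _ h4 h5
  exact congrArg Subtype.val h3

theorem disjoint_of_rat {m n : ℕ} (lam : ℕ → ℂ) (hlam : LinearIndependent Qa lam)
    (x : ℕ → Fin m → ℚ) (i : ℕ) (w : Fin n → ℂ)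
    (hw : ∀ j, w j ∈ Submodule.span ℚ (Set.range lam))
    (h : Disjoint (Submodule.span ℚ (Set.range w)) (XQ lam x i)) :
    Disjoint (Submodule.span Qa (Set.range w)) (Xr lam x i) := by
  have h1 : Submodule.span ℚ (Set.range w) ≤ Submodule.span ℚ (Set.range lam) := by
    rw [Submodule.span_le]
    rintro _ ⟨j, rfl⟩
    exact hw j
  have h2 : XQ lam x i ≤ Submodule.span ℚ (Set.range lam) := by
    refine (XQ_le lam x i).trans (Submodule.span_mono ?_)
    rintro _ ⟨j, rfl⟩
    exact ⟨j, rfl⟩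
  refine (disjoint_span lam hlam _ _ h1 h2 h).mono ?_ (Xr_le_span lam x i)
  rw [Submodule.span_le]
  rintro _ ⟨j, rfl⟩
  exact Submodule.subset_span (Submodule.subset_span ⟨j, rfl⟩)

end MP60829e.FQ
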