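import Pool.Agent.Lib.MP_60829e_nt.FQ.Rec
import Pool.Agent.Lib.MP_60829e_nt.FQ.Rat
import Pool.Agent.Lib.MP_60829e_nt.FC.Main

/-! # Q-infinity: final form with rational exceptional spaces -/

open MvPolynomial Module

namespace MP60829e.FQ

open MP60829e.ST (Qa Lsp Lt)
open MP60829e.FC (Xr Gen)

theorem XQ_zero (lam : ℕ → ℂ) {m : ℕ} (x : ℕ → Fin m → ℚ) : XQ lam x 0 = ⊥ := by
  rw [eq_bot_iff]
  rintro _ ⟨c, -, rfl⟩
  simp

theorem XQ_mono (lam : ℕ → ℂ) {m : ℕ} (x : ℕ → Fin m → ℚ) : Monotone (XQ lam x) := by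
  apply monotone_nat_of_le_succ
  rintro r _ ⟨c, hc, rfl⟩
  refine ⟨Fin.snoc c 0, fun s => ?_, ?_⟩
  · rw [Fin.sum_univ_castSucc]
    simpa using hc s
  · rw [Fin.sum_univ_castSucc]
    simp

/-- The elements of the exceptional spaces are logarithms in the kernel of `Φ`. -/
theorem XQ_sub {m : ℕ} (lam : ℕ → ℂ) (halg : ∀ j, IsAlgebraic ℚ (Complex.exp (lam j)))
    (x : ℕ → Fin m → ℚ) (Φ : ℂ →ₗ[ℚ] (Fin m → ℚ)) (hΦ : ∀ j, Φ (lam j) = x j) (r : ℕ) :
    ∀ v ∈ XQ lam x r, IsAlgebraic ℚ (Complex.exp v) ∧ Φ v = 0 := by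
  rintro _ ⟨c, hc, rfl⟩
  constructor
  · have h1 : ∑ j : Fin r, (c j : ℂ) * lam j ∈ SE.Lg := by
      refine Submodule.sum_mem _ fun j _ => ?_
      rw [← Rat.smul_def]
      exact Submodule.smul_mem _ _ (halg j)
    exact h1
  · funext s
    have h1 : ∀ j : Fin r, Φ ((c j : ℂ) * lam j) = c j • x j := by
      intro j
      rw [← Rat.smul_def, map_smul, hΦ]
    rw [map_sum, Finset.sum_apply, Pi.zero_apply, ← hc s]
    refine Finset.sum_congr rfl fun j _ => ?_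
    rw [h1, Pi.smul_apply, smul_eq_mul]

/-- Baker's theorem for finite families. -/
theorem indep_of_rat {n : ℕ} (w : Fin n → ℂ) (h : ∀ j, IsAlgebraic ℚ (Complex.exp (w j)))
    (hli : LinearIndependent ℚ w) : LinearIndependent Qa w := by
  rw [Fintype.linearIndependent_iff]
  intro g hg i
  have h1 := Pool.Agent.Lib.MP_60829e_nt.Bk.baker_hom (I := Fin n) (lam := w) h hli
    (fun i => ((g i : Qa) : ℂ)) (fun i => mem_algebraicClosure_iff.mp (g i).2) (by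
      rw [← hg]
      exact Finset.sum_congr rfl fun i _ => mul_comm _ _) i
  exact Subtype.ext h1

/-- Theorem Q-infinity, final form. -/
theorem final (n N : ℕ) (P : ℕ → MvPolynomial (Fin N ⊕ Fin n) ℂ) :
    ∃ (Φ : ℂ →ₗ[ℚ] (Fin (N + (n + 1) ^ 2) → ℚ)) (V : ℕ → Submodule ℚ ℂ),
      V 0 = ⊥ ∧ Monotone V ∧ (∀ i, FiniteDimensional ℚ (V i)) ∧
      (∀ i, ∀ v ∈ V i, IsAlgebraic ℚ (Complex.exp v) ∧ Φ v = 0) ∧
      (∀ i (z : Fin N → Qa) (w : Fin n → ℂ),
        (∀ j, w j ∈ Submodule.span Qa {l : ℂ | IsAlgebraic ℚ (Complex.exp l) ∧ Φ l = 0}) →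
        LinearIndependent Qa w →
        Disjoint (Submodule.span Qa (Set.range w)) (Submodule.span Qa (V i : Set ℂ)) →
        eval (Sum.elim (fun l => (z l : ℂ)) w) (P i) = 0 →
        ∀ x : Fin n → ℂ, eval (Sum.elim (fun l => (z l : ℂ)) x) (P i) = 0) ∧
      ∀ i (z : Fin N → ℂ) (w : Fin n → ℂ), (∀ l, IsAlgebraic ℚ (z l)) →
        (∀ j, IsAlgebraic ℚ (Complex.exp (w j)) ∧ Φ (w j) = 0) → LinearIndependent ℚ w →
        Disjoint (Submodule.span ℚ (Set.range w)) (V i) → eval (Sum.elim z w) (P i) = 0 →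
        ∀ x : Fin n → ℂ, eval (Sum.elim z x) (P i) = 0 := by
  have hm : N + n * (n + 2) + 1 ≤ N + (n + 1) ^ 2 := by
    have : (n + 1) ^ 2 = n * (n + 2) + 1 := by ring
    omega
  obtain ⟨lam, halg, hli, hspan⟩ := FC.exists_lam
  have hlam := FC.baker lam halg hli
  obtain ⟨x, hx⟩ := exists_x hm lam hlam (fun j => Submodule.subset_span (halg j)) P
  obtain ⟨Φ, hΦ⟩ := FC.exists_Phi lam hli x
  have hmain : ∀ i (z : Fin N → Qa) (w : Fin n → ℂ),
      (∀ j, w j ∈ Submodule.span Qa {l : ℂ | IsAlgebraic ℚ (Complex.exp l) ∧ Φ l = 0}) →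
      LinearIndependent Qa w →
      Disjoint (Submodule.span Qa (Set.range w)) (Xr lam x i) →
      eval (Sum.elim (fun l => (z l : ℂ)) w) (P i) = 0 →
      ∀ x : Fin n → ℂ, eval (Sum.elim (fun l => (z l : ℂ)) x) (P i) = 0 := by
    intro i z w hw hwli hd h0 v
    obtain ⟨r, hr⟩ := FC.exists_r lam x hspan Φ hΦ w hw
    exact goodP_main (hx i (max i r) (le_max_left i r)) z w
      (fun j => FC.Xr_mono lam x (le_max_right i r) (hr j)) hwli hd h0 v
  refine ⟨Φ, fun i => XQ lam x i, XQ_zero lam x, XQ_mono lam x, finite_XQ lam x,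
    XQ_sub lam halg x Φ hΦ, ?_, ?_⟩
  · intro i z w hw hwli hd h0
    exact hmain i z w hw hwli (hd.mono_right (Xr_le_span lam x i)) h0
  · intro i z w hz hw hwli hd h0 v
    obtain ⟨z', rfl⟩ : ∃ z' : Fin N → Qa, z = fun l => (z' l : ℂ) :=
      ⟨fun l => ⟨z l, mem_algebraicClosure_iff.2 (hz l)⟩, rfl⟩
    refine hmain i z' w (fun j => Submodule.subset_span (hw j)) ?_
      (disjoint_of_rat lam hlam x i w (fun j => hspan _ (hw j).1) hd) h0 v
    exact indep_of_rat w (fun j => (hw j).1) hwli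

end MP60829e.FQ
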