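import Pool.Agent.Lib.MP_60829e_nt.FQ.Rec
import Pool.Agent.Lib.MP_60829e_nt.FC.Main

/-! # Q-infinity -/

open MvPolynomial Module

namespace MP60829e.FQ

open MP60829e.ST (Qa Lsp Lt)
open MP60829e.FC (Xr Gen)

/-- Theorem Q-infinity. -/
theorem main (n N : ℕ) (P : ℕ → MvPolynomial (Fin N ⊕ Fin n) ℂ) :
    ∃ Φ : ℂ →ₗ[ℚ] (Fin (N + (n + 1) ^ 2) → ℚ), ∃ V : ℕ → Submodule Qa ℂ, V 0 = ⊥ ∧
      (∀ i, FiniteDimensional Qa (V i)) ∧
      ∀ i (z : Fin N → Qa) (w : Fin n → ℂ),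
        (∀ j, w j ∈ Submodule.span Qa {l : ℂ | IsAlgebraic ℚ (Complex.exp l) ∧ Φ l = 0}) →
        LinearIndependent Qa w → Disjoint (Submodule.span Qa (Set.range w)) (V i) →
        eval (Sum.elim (fun l => (z l : ℂ)) w) (P i) = 0 →
        ∀ x : Fin n → ℂ, eval (Sum.elim (fun l => (z l : ℂ)) x) (P i) = 0 := by
  have hm : N + n * (n + 2) + 1 ≤ N + (n + 1) ^ 2 := by
    have : (n + 1) ^ 2 = n * (n + 2) + 1 := by ring
    omega
  obtain ⟨lam, halg, hli, hspan⟩ := FC.exists_lam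
  have hlam := FC.baker lam halg hli
  obtain ⟨x, hx⟩ := exists_x hm lam hlam (fun j => Submodule.subset_span (halg j)) P
  obtain ⟨Φ, hΦ⟩ := FC.exists_Phi lam hli x
  refine ⟨Φ, fun i => Xr lam x i, ?_, ?_, ?_⟩
  · rw [eq_bot_iff]
    intro z hz
    obtain ⟨c, -, rfl⟩ := FC.mem_Xr.1 hz
    simp
  · intro i
    have h1 : Xr lam x i ≤ Submodule.span Qa (Set.range fun j : Fin i => lam j) := by
      intro z hz
      obtain ⟨c, -, rfl⟩ := FC.mem_Xr.1 hz
      exact Submodule.sum_mem _ fun j _ => Submodule.smul_mem _ _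
        (Submodule.subset_span ⟨j, rfl⟩)
    have : FiniteDimensional Qa (Submodule.span Qa (Set.range fun j : Fin i => lam j)) :=
      FiniteDimensional.span_of_finite Qa (Set.finite_range _)
    exact Submodule.finiteDimensional_of_le h1
  · intro i z w hw hwli hd h0 v
    obtain ⟨r, hr⟩ := FC.exists_r lam x hspan Φ hΦ w hw
    refine goodP_main (hx i (max i r) (le_max_left i r)) z w
      (fun j => FC.Xr_mono lam x (le_max_right i r) (hr j)) hwli hd h0 v

end MP60829e.FQ
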