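import Pool.Agent.Lib.MP_60829e_nt.FQ.Desc
import Pool.Agent.Lib.MP_60829e_nt.FC.StepA
import Pool.Agent.Lib.MP_60829e_nt.FC.Ultra

/-! # Q-infinity: the recursion -/

open MvPolynomial Module

namespace MP60829e.FQ

open MP60829e.ST (Qa Lsp Lt)
open MP60829e.FC (Xr Gen)

/-- `Xr lam x r` only depends on the values below `r`. -/
theorem Xr_congr (lam : ℕ → ℂ) {m : ℕ} {x y : ℕ → Fin m → ℚ} {r : ℕ}
    (h : ∀ j < r, x j = y j) : Xr lam x r = Xr lam y r := by
  ext z
  rw [FC.mem_Xr, FC.mem_Xr]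
  have h' : ∀ j : Fin r, x j = y j := fun j => h j j.2
  simp only [h']

/-- The invariant of the recursion. -/
private def Inv {N n m : ℕ} (lam : ℕ → ℂ) (P : ℕ → MvPolynomial (Fin N ⊕ Fin n) ℂ) (r : ℕ)
    (x : ℕ → Fin m → ℚ) : Prop :=
  ∀ i ≤ r, GoodP (P i) (Xr lam x r) (Xr lam x i)

private theorem inv_zero {N n m : ℕ} (lam : ℕ → ℂ) (P : ℕ → MvPolynomial (Fin N ⊕ Fin n) ℂ)
    (x : ℕ → Fin m → ℚ) : Inv lam P 0 x := by
  intro i hi
  obtain rfl : i = 0 := Nat.le_zero.1 hi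
  exact goodP_base _ _

private theorem inv_step {N n m : ℕ} (hm : N + n * (n + 2) + 1 ≤ m) (lam : ℕ → ℂ)
    (hlam : LinearIndependent Qa lam) (hlog : ∀ j, lam j ∈ Lsp)
    (P : ℕ → MvPolynomial (Fin N ⊕ Fin n) ℂ) (r : ℕ) (x : ℕ → Fin m → ℚ)
    (h : Inv lam P r x) : ∃ a : Fin m → ℚ, Inv lam P (r + 1) (Function.update x r a) := by
  obtain ⟨U, hU⟩ := FC.exists_gen m
  have h1 : ∀ᶠ a in (U : Filter (Fin m → ℚ)), ∀ i ∈ Set.Iic r,
      GoodP (P i) (Xr lam (Function.update x r a) (r + 1)) (Xr lam x i) := by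
    rw [Filter.eventually_all_finite (Set.finite_Iic r)]
    intro i hi
    exact goodP_step hm lam hlam hlog x U hU (P i) _ (h i hi)
  obtain ⟨a, ha⟩ := h1.exists
  refine ⟨a, fun i hi => ?_⟩
  rcases Nat.lt_or_ge r i with hri | hri
  · obtain rfl : i = r + 1 := by omega
    exact goodP_base _ _
  · have h2 : Xr lam (Function.update x r a) i = Xr lam x i :=
      Xr_congr lam fun j hj => Function.update_of_ne (by omega) _ _
    rw [h2]
    exact ha i hri

/-- PROOF. Recursion with `goodP_step` for the finitely many `i ≤ r`, `V i = Xr lam x i`,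
`goodP_base`. -/
theorem exists_x {N n m : ℕ} (hm : N + n * (n + 2) + 1 ≤ m) (lam : ℕ → ℂ)
    (hlam : LinearIndependent Qa lam) (hlog : ∀ j, lam j ∈ Lsp)
    (P : ℕ → MvPolynomial (Fin N ⊕ Fin n) ℂ) :
    ∃ x : ℕ → Fin m → ℚ, ∀ i r, i ≤ r → GoodP (P i) (Xr lam x r) (Xr lam x i) := by
  choose a ha using fun (r : ℕ) (x : ℕ → Fin m → ℚ) (h : Inv lam P r x) =>
    inv_step hm lam hlam hlog P r x h
  let s : ∀ r : ℕ, {x : ℕ → Fin m → ℚ // Inv lam P r x} := fun r =>
    Nat.rec ⟨0, inv_zero lam P 0⟩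
      (fun r p => ⟨Function.update p.1 r (a r p.1 p.2), ha r p.1 p.2⟩) r
  have hs : ∀ r, (s (r + 1)).1 = Function.update (s r).1 r (a r (s r).1 (s r).2) :=
    fun r => rfl
  obtain ⟨x, hx⟩ : ∃ x : ℕ → Fin m → ℚ, x = fun r => (s (r + 1)).1 r := ⟨_, rfl⟩
  have key : ∀ r, ∀ j < r, (s r).1 j = x j := by
    intro r
    induction r with
    | zero => exact fun j hj => absurd hj (Nat.not_lt_zero j)
    | succ r ih =>
      intro j hj
      rcases Nat.lt_or_ge j r with h | h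
      · rw [hs, Function.update_of_ne (by omega)]
        exact ih j h
      · obtain rfl : j = r := by omega
        rw [hx]
  refine ⟨x, fun i r hir => ?_⟩
  have h1 : Xr lam x r = Xr lam (s r).1 r := Xr_congr lam fun j hj => (key r j hj).symm
  have h2 : Xr lam x i = Xr lam (s r).1 i :=
    Xr_congr lam fun j hj => (key r j (by omega)).symm
  rw [h1, h2]
  exact (s r).2 i hir

end MP60829e.FQ
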